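import Mathlib
import Pool.Agent.Helper617.RM.HLDefs

/-!
Words, located words and the two forms of Carlson's theorem inside a structure for second-order
arithmetic. `L2Structure` (structures for the language of second-order arithmetic, Henkin
semantics), `IsModelRCA0`, the pairing function `N.pair`, the codes `IsCode` of finite sets and
the codes `IsSeq` of finite sequences are in `Pool.Agent.Helper617.RM`.
-/

namespace Run7.h563

open Pool.Agent.Helper617.RM

universe u

variable (N : L2Structure.{u})

/-- `x` is the entry number `i` of the finite sequence with code `u`. -/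
def Entry (u i x : N.M) : Prop := ∃ n f, IsSeq N u n f ∧ N.lt i n ∧ x = f i

/-- The (codes of) words over the alphabet `{x | x < a}`. -/
def Words (a : N.M) : Set N.M :=
  {u | ∃ n f, IsSeq N u n f ∧ ∀ i, N.lt i n → N.lt (f i) a}

/-- The (codes of) variable words over the alphabet `{x | x < a}`. The number `a` is used as the
symbol `⋆`; it occurs at least once. -/
def VarWords (a : N.M) : Set N.M :=
  {u | ∃ n f, IsSeq N u n f ∧ (∀ i, N.lt i n → N.lt (f i) a ∨ f i = a) ∧
    ∃ i, N.lt i n ∧ f i = a}

open Classical in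
/-- `b` if `x` is the symbol `⋆`, that is, the number `a`, and `x` otherwise. -/
noncomputable def repl (a b x : N.M) : N.M := if x = a then b else x

/-- `c` is a colouring of `D` with colours `< k` that exists in the structure. -/
def IsCol (D : Set N.M) (k : N.M) (c : N.M → N.M) : Prop :=
  (∀ p ∈ D, N.lt (c p) k) ∧ {r | ∃ p ∈ D, r = N.pair p (c p)} ∈ N.Sets

/-- The set `⟨(w_n)⟩_A` of all (codes of) concatenations
`w_{ν 0}[α 0] w_{ν 1}[α 1] ⋯ w_{ν (k-1)}[α (k-1)]` with `k ≥ 1`, `ν 0 < ⋯ < ν (k-1)` and
`α i ∈ A` for `A = {x | x < a}`. The number `l i` is the total length of the first `i` of these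
words. -/
def WordSpan (a : N.M) (w : N.M → N.M) : Set N.M :=
  {u | ∃ (k : N.M) (ν α l : N.M → N.M), FunIn N ν ∧ FunIn N α ∧ FunIn N l ∧ N.lt N.zero k ∧
    (∀ i j, N.lt i j → N.lt j k → N.lt (ν i) (ν j)) ∧ (∀ i, N.lt i k → N.lt (α i) a) ∧
    l N.zero = N.zero ∧
    (∀ i, N.lt i k → ∃ m, HasLen N (w (ν i)) m ∧ l (N.add i N.one) = N.add (l i) m ∧
      ∀ j x, Entry N (w (ν i)) j x → Entry N u (N.add (l i) j) (repl N a (α i) x)) ∧
    HasLen N u (l k)}

/-- Carlson's theorem for words, for the alphabet `{x | x < a}` and `k` colours. -/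
def CTFor (a k : N.M) : Prop :=
  ∀ c : N.M → N.M, IsCol N (Words N a) k c →
    ∃ w : N.M → N.M, FunIn N w ∧ (∀ n, w n ∈ VarWords N a) ∧
      ∃ j, ∀ u ∈ WordSpan N a w, c u = j

/-- Carlson's theorem for words. -/
def CT : Prop := ∀ a k : N.M, N.lt N.zero a → CTFor N a k

/-- `(i, x)` belongs to the finite set with code `p`; for the code `p` of a finite partial
function this says `p(i) = x`. -/
def Val (p i x : N.M) : Prop := ∃ F, IsCode N p F ∧ N.pair i x ∈ F

/-- `p` is the code of a finite partial function with a nonempty domain, all of whose values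
satisfy `V`. -/
def IsFinFun (V : N.M → Prop) (p : N.M) : Prop :=
  ∃ F : Set N.M, IsCode N p F ∧ F.Nonempty ∧ (∀ r ∈ F, ∃ i x, V x ∧ r = N.pair i x) ∧
    ∀ i x y, N.pair i x ∈ F → N.pair i y ∈ F → x = y

/-- The (codes of) located words over the alphabet `{x | x < a}`. -/
def Loc (a : N.M) : Set N.M := {p | IsFinFun N (fun x => N.lt x a) p}

/-- The (codes of) located variable words over the alphabet `{x | x < a}`. The number `a` is used
as the symbol `⋆`; it is taken at least once. -/
def VarLoc (a : N.M) : Set N.M :=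
  {p | IsFinFun N (fun x => N.lt x a ∨ x = a) p ∧ ∃ i, Val N p i a}

/-- `p < q`: every element of the domain of `p` is less than every element of the domain
of `q`. -/
def Before (p q : N.M) : Prop := ∀ i x j y, Val N p i x → Val N q j y → N.lt i j

/-- The set `[Y]_A` of all (codes of) unions of `y[α y]`, `y ∈ F`, for a finite nonempty subset
`F` of `Y` and letters `α y ∈ A = {x | x < a}`. -/
def LocSpan (a : N.M) (Y : Set N.M) : Set N.M :=
  {p | ∃ F ∈ N.Sets, F ⊆ Y ∧ F.Nonempty ∧ IsFin N F ∧
    ∃ α : N.M → N.M, FunIn N α ∧ (∀ y ∈ F, N.lt (α y) a) ∧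
      IsCode N p {r | ∃ y ∈ F, ∃ i x, Val N y i x ∧ r = N.pair i (repl N a (α y) x)}}

/-- `Y` is an infinite block sequence of located variable words. -/
structure IsBlockSeq (a : N.M) (Y : Set N.M) : Prop where
  mem : Y ∈ N.Sets
  infinite : ¬ IsFin N Y
  sub : Y ⊆ VarLoc N a
  comp : ∀ p ∈ Y, ∀ q ∈ Y, p ≠ q → Before N p q ∨ Before N q p

/-- Carlson's theorem for located words, for the alphabet `{x | x < a}` and `k` colours. -/
def CTLocFor (a k : N.M) : Prop :=
  ∀ c : N.M → N.M, IsCol N (Loc N a) k c →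
    ∃ Y, IsBlockSeq N a Y ∧ ∃ j, ∀ p ∈ LocSpan N a Y, c p = j

/-- Carlson's theorem for located words. -/
def CTLoc : Prop := ∀ a k : N.M, N.lt N.zero a → CTLocFor N a k

end Run7.h563
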