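import Mathlib
import Pool.Agent.H645R2.R.BinPF
import Pool.Agent.H645R2.R.BinEx
import Pool.Agent.H645R2.R.Rec

/-!
Tools for `Δ⁰₁` functions in models of `RCA₀`: minimisation, recursion, codes of images,
lengths and entries of sequences, the pigeonhole principle.
-/

namespace Run7.h563

open Pool.Agent.Helper617.RM Pool.Agent.H645R2.R

universe u

set_option linter.unusedSectionVars false
set_option linter.unusedVariables false
set_option linter.unreachableTactic false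
set_option linter.unusedTactic false

variable {N : L2Structure.{u}} [IsModelRCA0 N]

/-! ### functions of two and three variables -/

/-- binary functions of the model -/
def GF2 (F : N.M → N.M → N.M) : Prop := DG (fun v : Ctx N => F (v 0) (v 1))

/-- ternary functions of the model -/
def GF3 (F : N.M → N.M → N.M → N.M) : Prop := DG (fun v : Ctx N => F (v 0) (v 1) (v 2))

theorem DG.compCM {g : Ctx N → N.M} (hg : DG g) {h : Ctx N → Ctx N} (hh : CM h) :
    DG (fun v => g (h v)) :=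
  D1.comp (R := fun w => w 0 = g (tail w)) hg (g := fun w => cons (w 0) (h (tail w)))
    (CM.cons (Tm.var 0) (fun i => (hh i).tail))

theorem DG.app2 {F : N.M → N.M → N.M} (hF : GF2 F) {g g' : Ctx N → N.M} (hg : DG g)
    (hg' : DG g') : DG (fun v => F (g v) (g' v)) :=
  D1.app3 (R := fun a b c => a = F b c)
    (D1.comp (R := fun w => w 0 = F (tail w 0) (tail w 1)) hF (g := fun v => v) CM.id)
    (DG.var 0) hg.tail hg'.tail

theorem D1.app4 {R : N.M → N.M → N.M → N.M → Prop}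
    (hR : D1 (fun v => R (v 0) (v 1) (v 2) (v 3)))
    {g g' g'' g''' : Ctx N → N.M} (hg : DG g) (hg' : DG g') (hg'' : DG g'') (hg''' : DG g''') :
    D1 (fun v => R (g v) (g' v) (g'' v) (g''' v)) := by
  refine D1.substF (P := fun v x => R x (g' v) (g'' v) (g''' v)) ?_ hg
  refine D1.substF (P := fun v x => R (v 0) x (g'' (tail v)) (g''' (tail v))) ?_ hg'.tail
  refine D1.substF (P := fun v x => R (v 1) (v 0) x (g''' (tail (tail v)))) ?_ hg''.tail.tail
  refine D1.substF (P := fun v x => R (v 2) (v 1) (v 0) x) ?_ hg'''.tail.tail.tail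
  exact D1.comp (R := fun v => R (v 0) (v 1) (v 2) (v 3)) hR
    (g := fun v => cons (v 3) (cons (v 2) (cons (v 1) (cons (v 0) v))))
    (CM.cons (Tm.var 3) (CM.cons (Tm.var 2) (CM.cons (Tm.var 1) (CM.cons (Tm.var 0) CM.id))))

theorem DG.app3 {F : N.M → N.M → N.M → N.M} (hF : GF3 F) {g g' g'' : Ctx N → N.M} (hg : DG g)
    (hg' : DG g') (hg'' : DG g'') : DG (fun v => F (g v) (g' v) (g'' v)) :=
  D1.app4 (R := fun a b c d => a = F b c d)
    (D1.comp (R := fun w => w 0 = F (tail w 0) (tail w 1) (tail w 2)) hF (g := fun v => v) CM.id)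
    (DG.var 0) hg.tail hg'.tail hg''.tail

theorem GF.toDG {f : N.M → N.M} (hf : GF f) : DG (fun v : Ctx N => f (v 0)) :=
  DG.app hf (DG.var 0)

theorem DG.ite {R : Ctx N → Prop} {_ : ∀ v, Decidable (R v)} (hR : D1 R) {g g' : Ctx N → N.M}
    (hg : DG g) (hg' : DG g') : DG (fun v => if R v then g v else g' v) := by
  refine D1.congr (R := fun w => (R (tail w) ∧ w 0 = g (tail w)) ∨
    (¬ R (tail w) ∧ w 0 = g' (tail w))) ?_ ?_
  · exact D1.or (D1.and hR.tail hg) (D1.and hR.tail.not hg')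
  · intro w
    by_cases h : R (tail w) <;> simp [h]

/-! ### minimisation -/

open Classical in
/-- the least element with the property `P` -/
noncomputable def mu (P : N.M → Prop) : N.M :=
  if h : ∃ x, P x ∧ ∀ y, y < x → ¬ P y then h.choose else 0

theorem mu_eq {P : N.M → Prop} {x : N.M} (h : P x) (h' : ∀ y, y < x → ¬ P y) : mu P = x := by
  have hex : ∃ x, P x ∧ ∀ y, y < x → ¬ P y := ⟨x, h, h'⟩
  unfold mu
  rw [dif_pos hex]
  obtain ⟨h1, h2⟩ := hex.choose_spec
  rcases lt_trichotomy hex.choose x with h3 | h3 | h3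
  · exact absurd h1 (h' _ h3)
  · exact h3
  · exact absurd h (h2 _ h3)

theorem D1.fix {P : Ctx N → N.M → Prop} (hP : D1 (fun w => P (tail w) (w 0))) (v : Ctx N) :
    D1 (fun w => P v (w 0)) :=
  D1.comp (R := fun w => P (tail w) (w 0)) hP (g := fun w => cons (w 0) v)
    (CM.cons (Tm.var 0) (fun i => Tm.const (v i)))

theorem mu_spec_ctx {P : Ctx N → N.M → Prop} (hP : D1 (fun w => P (tail w) (w 0))) (v : Ctx N)
    (h : ∃ x, P v x) : P v (mu (P v)) ∧ ∀ y, y < mu (P v) → ¬ P v y := by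
  obtain ⟨x, hx⟩ := h
  obtain ⟨y, -, hy1, hy2⟩ := lnp_S1 (P := fun y => P v y) (D1.fix hP v).1 x hx
  rw [mu_eq hy1 hy2]
  exact ⟨hy1, hy2⟩

theorem mu_spec {P : N.M → Prop} (hP : D1 (fun w => P (w 0)))
    (h : ∃ x, P x) : P (mu P) ∧ ∀ y, y < mu P → ¬ P y :=
  mu_spec_ctx (P := fun _ x => P x) hP (fun _ => 0) h

theorem DG.mu {P : Ctx N → N.M → Prop} (hP : D1 (fun w => P (tail w) (w 0)))
    (h : ∀ v, ∃ x, P v x) : DG (fun v => mu (P v)) := by
  refine D1.congr (R := fun w => P (tail w) (w 0) ∧ ∀ y, y < w 0 → ¬ P (tail w) y) ?_ ?_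
  · refine D1.and hP (D1.ball (DG.var 0) (D1.not ?_))
    exact D1.comp (R := fun w => P (tail w) (w 0)) hP
      (g := fun w => cons (w 0) (tail (tail w))) (CM.cons (Tm.var 0) CM.tail.tail')
  · intro w
    constructor
    · rintro ⟨h1, h2⟩
      exact (mu_eq h1 h2).symm
    · intro h1
      have h1' : w 0 = Run7.h563.mu (P (tail w)) := h1
      have := mu_spec_ctx hP (tail w) (h _)
      rw [← h1'] at this
      exact this

/-! ### subtraction and recursion -/

/-- truncated subtraction -/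
noncomputable def sb (x y : N.M) : N.M := mu (fun z => x < z + y + 1)

theorem sb_gf : GF2 (N := N) sb := by
  refine DG.mu (P := fun v z => v 0 < z + v 1 + 1) ?_ ?_
  · exact D1.lt (DG.var 1) (DG.add (DG.add (DG.var 0) (DG.var 2)) (DG.const 1))
  · intro v
    exact ⟨v 0, lt1_of_le (le_add_of_nonneg_right (zero_le' _))⟩

theorem sb_add (x y : N.M) : sb (x + y) y = x := by
  refine mu_eq (lt1 _) fun z hz h => ?_
  have h1 := le_of_lt1 h
  exact absurd hz (not_lt.2 (le_of_add_le_add_right h1))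

theorem sb_add_cancel {x y : N.M} (h : y ≤ x) : sb x y + y = x := by
  obtain ⟨c, rfl⟩ := exists_sub h
  rw [add_comm y c, sb_add]

theorem exists_rec2 {st : N.M → N.M → N.M} (hst : GF2 st) (a : N.M) :
    ∃ Φ : N.M → N.M, GF Φ ∧ Φ 0 = a ∧ ∀ n, Φ (n + 1) = st n (Φ n) := by
  have hpd : GF (fun n : N.M => sb n 1) := GF.of (DG.app2 sb_gf (DG.var 0) (DG.const 1))
  have hst' : D1 (fun v : Ctx N => v 2 = st (sb (v 0) 1) (v 1)) := by
    have : DG (fun v : Ctx N => st (sb (v 0) 1) (v 1)) :=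
      DG.app2 hst (DG.app2 sb_gf (DG.var 0) (DG.const 1)) (DG.var 1)
    exact D1.comp (R := fun w => w 0 = st (sb (tail w 0) 1) (tail w 1)) this
      (g := fun v => cons (v 2) v) (CM.cons (Tm.var 2) CM.id)
  obtain ⟨Φ, h1, h2, h3⟩ := recur N (fun n => sb n 1) (fun n y => st (sb n 1) y) a hpd hst'
    (fun n hn => by
      rcases eq_zero_or_succ n with h | ⟨k, h⟩
      · exact absurd h hn.ne'
      · show sb n 1 < n
        rw [h, sb_add]
        exact lt1 k)
  refine ⟨Φ, h1, h2, fun n => ?_⟩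
  have h4 := h3 (n + 1) (lt_of_le_of_lt (zero_le' n) (lt1 n))
  have h5 : sb (n + 1) 1 = n := sb_add n 1
  simp only [h5] at h4
  exact h4

/-- induction for `Δ⁰₁` predicates -/
theorem ind_D1 {P : N.M → Prop} (hP : D1 (fun v => P (v 0))) (h0 : P 0)
    (hs : ∀ n, P n → P (n + 1)) (n : N.M) : P n := ind_S1 hP.1 h0 hs n

/-! ### codes of images -/

theorem bdd_image {F : N.M → N.M} (hF : GF F) (n : N.M) : ∃ b, ∀ j, j < n → F j < b := by
  obtain ⟨b, hb⟩ := bounding (Q := fun j k => k = F j)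
    (D0.rel (R := fun j k => k = F j) hF (Tm.var 1) (Tm.var 0)) n (fun x _ => ⟨F x, rfl⟩)
  refine ⟨b, fun j hj => ?_⟩
  obtain ⟨k, hk, e⟩ := hb j hj
  rw [← e]
  exact hk

theorem exists_isC_D1 {P : N.M → Prop} (hP : D1 (fun v => P (v 0))) {b : N.M}
    (hb : ∀ r, P r → r < b) : ∃ u, IsC u ∧ ∀ r, MemC r u ↔ P r :=
  exists_isC (d0_of_D1_pred hP.1 hP.2) hb

theorem GF2.fix {F : N.M → N.M → N.M} (hF : GF2 F) (u : N.M) : GF (F u) :=
  GF.of (DG.app2 hF (DG.const u) (DG.var 0))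

theorem exists_im {n : N.M → N.M} {F : N.M → N.M → N.M} (hn : GF n) (hF : GF2 F) :
    ∃ im : N.M → N.M, GF im ∧ ∀ u, IsC (im u) ∧ ∀ r, MemC r (im u) ↔ ∃ j, j < n u ∧ r = F u j := by
  have hex : ∀ u, ∃ p, IsC p ∧ ∀ r, MemC r p ↔ ∃ j, j < n u ∧ r = F u j := by
    intro u
    obtain ⟨b, hb⟩ := bdd_image (hF.fix u) (n u)
    refine exists_isC_D1 (P := fun r => ∃ j, j < n u ∧ r = F u j) ?_ (b := b) ?_
    · exact D1.bex (DG.const (n u)) (D1.eq (DG.var 1) (DG.app2 hF (DG.const u) (DG.var 0)))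
    · rintro r ⟨j, hj, rfl⟩
      exact hb j hj
  choose im h1 h2 using hex
  refine ⟨im, GF.graph ?_, fun u => ⟨h1 u, h2 u⟩⟩
  refine D1.congr (R := fun v => IsC (v 1) ∧ (∀ r, r < v 1 → MemC r (v 1) →
    ∃ j, j < n (v 0) ∧ r = F (v 0) j) ∧ ∀ j, j < n (v 0) → MemC (F (v 0) j) (v 1)) ?_ ?_
  · refine D1.and (D1.IsC (DG.var 1)) (D1.and (D1.ball (DG.var 1) (D1.imp
      (D1.MemC (DG.var 0) (DG.var 2)) (D1.bex (DG.app hn (DG.var 1))
        (D1.eq (DG.var 1) (DG.app2 hF (DG.var 2) (DG.var 0))))))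
      (D1.ball (DG.app hn (DG.var 0)) ?_))
    exact D1.MemC (DG.app2 hF (DG.var 1) (DG.var 0)) (DG.var 2)
  · intro v
    constructor
    · rintro ⟨a1, a2, a3⟩
      refine isC_ext a1 (h1 _) fun r => ?_
      rw [h2]
      constructor
      · intro hr
        exact a2 r hr.lt hr
      · rintro ⟨j, hj, rfl⟩
        exact a3 j hj
    · intro h
      rw [h]
      refine ⟨h1 _, fun r _ hr => (h2 _ r).1 hr, fun j hj => (h2 _ _).2 ⟨j, hj, rfl⟩⟩

theorem exists_sqim {n : N.M → N.M} {h : N.M → N.M → N.M} (hn : GF n) (hh : GF2 h) :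
    ∃ sq : N.M → N.M, GF sq ∧ ∀ u, IsSq (sq u) (n u) ∧
      ∀ i, i < n u → MemC (pr i (h u i)) (sq u) := by
  obtain ⟨im, h1, h2⟩ := exists_im (F := fun u j => pr j (h u j)) hn
    (DG.pr (DG.var 1) hh)
  refine ⟨im, h1, fun u => ⟨isSq_of (h2 u).1 ?_ ?_ ?_, ?_⟩⟩
  · intro r hr
    obtain ⟨j, hj, e⟩ := ((h2 u).2 r).1 hr
    exact ⟨j, _, hj, e⟩
  · intro i hi
    exact ⟨_, ((h2 u).2 _).2 ⟨i, hi, rfl⟩⟩
  · intro i z z' hz hz'
    obtain ⟨j, hj, e⟩ := ((h2 u).2 _).1 hz
    obtain ⟨j', hj', e'⟩ := ((h2 u).2 _).1 hz'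
    obtain ⟨a1, a2⟩ := pr_inj e
    obtain ⟨b1, b2⟩ := pr_inj e'
    rw [a2, b2, ← a1, ← b1]
  · intro i hi
    exact ((h2 u).2 _).2 ⟨i, hi, rfl⟩

theorem exists_sq1 {h : N.M → N.M} (hh : GF h) (n : N.M) :
    ∃ u, IsSq u n ∧ ∀ i, i < n → MemC (pr i (h i)) u := by
  obtain ⟨sq, -, h2⟩ := exists_sqim (n := fun _ : N.M => n) (h := fun _ i => h i)
    (GF.of (DG.const n)) (DG.app hh (DG.var 1))
  exact ⟨sq 0, h2 0⟩

/-! ### length and entries -/

theorem D1.IsSq {g g' : Ctx N → N.M} (hg : DG g) (hg' : DG g') :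
    D1 (fun v => IsSq (g v) (g' v)) :=
  D1.app2 (R := fun a b => Pool.Agent.Helper617.RM.IsSq a b)
    (D1.of (IsSq_D0 (Tm.var 0) (Tm.var 1))) hg hg'

/-- the length of a sequence -/
noncomputable def len (u : N.M) : N.M := mu (fun n => IsSq u n ∨ u < n)

theorem len_gf : GF (N := N) len := by
  refine GF.of (DG.mu (P := fun v n => IsSq (v 0) n ∨ v 0 < n) ?_ ?_)
  · exact D1.or (D1.IsSq (DG.var 1) (DG.var 0)) (D1.lt (DG.var 1) (DG.var 0))
  · intro v
    exact ⟨v 0 + 1, Or.inr (lt1 _)⟩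

theorem len_eq {u n : N.M} (h : IsSq u n) : len u = n := by
  refine mu_eq (Or.inl h) ?_
  rintro m hm (h1 | h1)
  · exact absurd (h1.len_unique h) hm.ne
  · exact absurd (h1.trans hm) (not_lt.2 h.len_le)

/-- the entries of a sequence -/
noncomputable def ent (u i : N.M) : N.M := mu (fun z => MemC (pr i z) u ∨ u < z)

theorem ent_gf : GF2 (N := N) ent := by
  refine DG.mu (P := fun v z => MemC (pr (v 1) z) (v 0) ∨ v 0 < z) ?_ ?_
  · exact D1.or (D1.MemC (DG.pr (DG.var 2) (DG.var 0)) (DG.var 1)) (D1.lt (DG.var 1) (DG.var 0))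
  · intro v
    exact ⟨v 0 + 1, Or.inr (lt1 _)⟩

theorem ent_eq {u n i z : N.M} (h : IsSq u n) (hz : MemC (pr i z) u) : ent u i = z := by
  refine mu_eq (Or.inl hz) ?_
  rintro y hy (h1 | h1)
  · exact absurd (h.fn h1 hz) hy.ne
  · exact absurd (h1.trans hy) (not_lt.2 hz.snd_lt.le)

theorem ent_mem {u n i : N.M} (h : IsSq u n) (hi : i < n) : MemC (pr i (ent u i)) u := by
  obtain ⟨z, hz⟩ := h.ex hi
  rw [ent_eq h hz]
  exact hz

theorem mem_iff_ent {u n i z : N.M} (h : IsSq u n) : MemC (pr i z) u ↔ i < n ∧ z = ent u i := by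
  constructor
  · intro hz
    exact ⟨h.lt hz, (ent_eq h hz).symm⟩
  · rintro ⟨h1, rfl⟩
    exact ent_mem h h1

/-! ### codes of bounded sets are bounded -/

theorem isC_bound (B : N.M) : ∃ U, ∀ u, IsC u → (∀ r, MemC r u → r < B) → u ≤ U := by
  obtain ⟨m, hm⟩ := exists_base B
  obtain ⟨T, hT, hT2⟩ := exists_top B m
  refine ⟨pr B (pr m T), fun u hu hB => ?_⟩
  obtain ⟨n, hnT, _, hn, _⟩ := exists_code (P := fun i => MemC i u)
    (MemC_D0 (Tm.var 0) (Tm.const u)).S1 hm hT hT2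
  have hle : pr B (pr m n) ≤ pr B (pr m T) := by
    have h1 : pr m n ≤ pr m T := by
      unfold pr
      gcongr
    unfold pr at h1 ⊢
    gcongr
  refine le_trans ?_ hle
  by_contra hcon
  obtain ⟨i, hi, hne⟩ := hu.2 _ (not_le.1 hcon) (Shape_pr _ _ _)
  apply hne
  rw [MemC_pr]
  constructor
  · intro h
    exact ⟨hB i h, (hn i (hB i h)).2 h⟩
  · rintro ⟨h1, h2⟩
    exact (hn i h1).1 h2

/-! ### the pigeonhole principle -/

theorem php {h : N.M → N.M} (hh : GF h) (P : N.M) (hP : ∀ x, x < P + 1 → h x < P) :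
    ∃ i j, i < j ∧ j < P + 1 ∧ h i = h j := by
  have key : ∀ P : N.M, ∀ u, (IsSq u (P + 1) ∧ ∀ i, i < P + 1 → ent u i < P) →
      ∃ j, j < P + 1 ∧ ∃ i, i < j ∧ ent u i = ent u j := by
    intro P
    refine ind_P1 (P := fun P => ∀ u, (IsSq u (P + 1) ∧ ∀ i, i < P + 1 → ent u i < P) →
      ∃ j, j < P + 1 ∧ ∃ i, i < j ∧ ent u i = ent u j) ?_ ?_ ?_ P
    · refine S1.congr (R := fun v => ∃ u, (IsSq u (v 0 + 1) ∧ ∀ i, i < v 0 + 1 → ent u i < v 0) ∧
        ¬ ∃ j, j < v 0 + 1 ∧ ∃ i, i < j ∧ ent u i = ent u j) ?_ ?_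
      · refine S1.ex (D1.and (D1.and ?_ (D1.ball ?_ ?_)) (D1.not (D1.bex ?_ (D1.bex ?_ ?_)))).1
        · exact D1.IsSq (DG.var 0) (DG.add (DG.var 1) (DG.const 1))
        · exact DG.add (DG.var 1) (DG.const 1)
        · exact D1.lt (DG.app2 ent_gf (DG.var 1) (DG.var 0)) (DG.var 2)
        · exact DG.add (DG.var 1) (DG.const 1)
        · exact DG.var 0
        · exact D1.eq (DG.app2 ent_gf (DG.var 2) (DG.var 0)) (DG.app2 ent_gf (DG.var 2) (DG.var 1))
      · intro v
        push Not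
        rfl
    · rintro u ⟨h1, h2⟩
      exact absurd (h2 0 (lt1 _)) (not_lt.2 (zero_le' _))
    · rintro P ih u ⟨h1, h2⟩
      -- replace the value `P` by the last value
      classical
      set w := ent u (P + 1) with hw
      have hgf : GF (fun i : N.M => if ent u i = P then w else ent u i) := by
        refine GF.of (DG.ite ?_ (DG.const w) ?_)
        · exact D1.eq (DG.app2 ent_gf (DG.const u) (DG.var 0)) (DG.const P)
        · exact DG.app2 ent_gf (DG.const u) (DG.var 0)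
      have hlast : (P + 1 : N.M) < P + 1 + 1 := lt1 _
      by_cases hcol : ∃ i, i < P + 1 ∧ ent u i = w
      · obtain ⟨i, hi, e⟩ := hcol
        exact ⟨P + 1, hlast, i, hi, e⟩
      push Not at hcol
      obtain ⟨u', hu1, hu2⟩ := exists_sq1 hgf (P + 1)
      have hval : ∀ i, i < P + 1 → ent u' i = if ent u i = P then w else ent u i :=
        fun i hi => ent_eq hu1 (hu2 i hi)
      have hwP : w < P ∨ w = P := lt_or_eq_of_le (le_of_lt1 (h2 _ hlast))
      obtain ⟨j, hj, i, hij, e⟩ := ih u' ⟨hu1, fun i hi => by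
        rw [hval i hi]
        have h3 := lt_or_eq_of_le (le_of_lt1 (h2 i (hi.trans hlast)))
        by_cases h4 : ent u i = P
        · rw [if_pos h4]
          rcases hwP with h5 | h5
          · exact h5
          · exact absurd (h4.trans h5.symm) (hcol i hi)
        · rw [if_neg h4]
          rcases h3 with h3 | h3
          · exact h3
          · exact absurd h3 h4⟩
      refine ⟨j, hj.trans hlast, i, hij, ?_⟩
      rw [hval i (hij.trans hj), hval j hj] at e
      by_cases h4 : ent u i = P <;> by_cases h5 : ent u j = P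
      · rw [h4, h5]
      · rw [if_pos h4, if_neg h5] at e
        exact absurd e.symm (hcol j hj)
      · rw [if_neg h4, if_pos h5] at e
        exact absurd e (hcol i (hij.trans hj))
      · rw [if_neg h4, if_neg h5] at e
        exact e
  obtain ⟨u, hu1, hu2⟩ := exists_sq1 hh (P + 1)
  have hval : ∀ i, i < P + 1 → ent u i = h i := fun i hi => ent_eq hu1 (hu2 i hi)
  obtain ⟨j, hj, i, hij, e⟩ := key P u ⟨hu1, fun i hi => by rw [hval i hi]; exact hP i hi⟩
  exact ⟨i, j, hij, hj, by rw [← hval i (hij.trans hj), ← hval j hj]; exact e⟩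

end Run7.h563
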