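import Mathlib
import Pool.Agent.Run7.h563.Tools

/-!
Residues modulo powers of two in a model of `RCA₀`, and the splitting of an interval into
consecutive pieces whose lengths are the powers of two in the binary expansion of its length.
-/

namespace Run7.h563

open Pool.Agent.Helper617.RM Pool.Agent.H645R2.R

universe u

set_option linter.unusedSectionVars false
set_option linter.unusedVariables false

variable {N : L2Structure.{u}} [IsModelRCA0 N] {p2 top la : N.M → N.M}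

/-- the residue of `n` modulo `2 ^ R` -/
noncomputable def rm (p2 : N.M → N.M) (n R : N.M) : N.M :=
  mu (fun r => ∃ q, q < n + 1 ∧ n = r + p2 R * q)

theorem rm_gf (hp : GF p2) : GF2 (rm p2) := by
  refine DG.mu (P := fun v r => ∃ q, q < v 0 + 1 ∧ v 0 = r + p2 (v 1) * q) ?_ ?_
  · exact D1.bex (DG.add (DG.var 1) (DG.const 1)) (D1.eq (DG.var 2)
      (DG.add (DG.var 1) (DG.mul (DG.app hp (DG.var 3)) (DG.var 0))))
  · intro v
    exact ⟨v 0, 0, lt1_of_le (zero_le' _), by rw [mul_zero, add_zero]⟩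

theorem div_unique {r r' P q q' : N.M} (h : r + P * q = r' + P * q') (hr : r < P) (hr' : r' < P) :
    r = r' := by
  have key : ∀ {r r' q q' : N.M}, r + P * q = r' + P * q' → r < P → r' < P → ¬ q < q' := by
    intro r r' q q' h hr hr' hq
    obtain ⟨d, rfl⟩ := exists_sub (succ_le' hq)
    have h1 : r + P * q = (r' + P + P * d) + P * q := by rw [h]; ring
    have h2 : r = r' + P + P * d := add_right_cancel h1
    have h3 : P ≤ r := by
      rw [h2]
      calc P ≤ r' + P := le_add_of_nonneg_left (zero_le' _)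
        _ ≤ r' + P + P * d := le_add_of_nonneg_right (zero_le' _)
    exact absurd hr (not_lt.2 h3)
  rcases lt_trichotomy q q' with h1 | h1 | h1
  · exact absurd h1 (key h hr hr')
  · rw [h1] at h
    exact add_right_cancel h
  · exact absurd h1 (key h.symm hr' hr)

theorem rm_eq (B : BinP p2 top la) {n R r q : N.M} (hr : r < p2 R) (h : n = r + p2 R * q) :
    rm p2 n R = r := by
  refine mu_eq ⟨q, ?_, h⟩ ?_
  · refine lt1_of_le ?_
    have h1 : 1 ≤ p2 R := one_le_of_pos (B.p2_pos R)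
    calc q = 1 * q := (one_mul q).symm
      _ ≤ p2 R * q := by gcongr
      _ ≤ r + p2 R * q := le_add_of_nonneg_left (zero_le' _)
      _ = n := h.symm
  · rintro y hy ⟨q', -, hq'⟩
    exact absurd (div_unique (hq'.symm.trans h) (hy.trans hr) hr) hy.ne

theorem rm_ex (B : BinP p2 top la) (n R : N.M) : rm p2 n R < p2 R ∧
    ∃ q, n = rm p2 n R + p2 R * q := by
  obtain ⟨r, q, h1, h2⟩ := B.modp n R
  rw [rm_eq B h1 h2]
  exact ⟨h1, q, h2⟩

theorem rm_le (B : BinP p2 top la) (n R : N.M) : rm p2 n R ≤ n := by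
  obtain ⟨-, q, hq⟩ := rm_ex B n R
  conv_rhs => rw [hq]
  exact le_add_of_nonneg_right (zero_le' _)

theorem rm_zero (B : BinP p2 top la) (n : N.M) : rm p2 n 0 = 0 := by
  have h := (rm_ex B n 0).1
  rw [B.p2_zero] at h
  rcases eq_zero_or_succ (rm p2 n 0) with h1 | ⟨k, h1⟩
  · exact h1
  · rw [h1] at h
    have h2 : k + 1 < 0 + 1 := by rw [zero_add]; exact h
    exact absurd ((add_lt_add_iff_right 1).1 h2) (not_lt.2 (zero_le' _))

theorem rm_of_lt (B : BinP p2 top la) {n R : N.M} (h : n < p2 R) : rm p2 n R = n :=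
  rm_eq B (q := 0) h (by rw [mul_zero, add_zero])

theorem p2_le (B : BinP p2 top la) {a b : N.M} (h : a ≤ b) : p2 a ≤ p2 b := by
  rcases lt_or_eq_of_le h with h1 | rfl
  · exact (B.p2_lt _ _ h1).le
  · exact le_rfl

theorem rm_step (B : BinP p2 top la) (n R : N.M) :
    rm p2 n (R + 1) = rm p2 n R ∨ rm p2 n (R + 1) = rm p2 n R + p2 R := by
  obtain ⟨h1, q, hq⟩ := rm_ex B n R
  obtain ⟨m, -, h | h⟩ := BinEx.parity q
  · left
    refine rm_eq B (q := m) ?_ ?_
    · rw [B.p2_succ]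
      exact h1.trans (lt_add_of_pos_right _ (B.p2_pos R))
    · conv_lhs => rw [hq, h]
      rw [B.p2_succ]
      ring
  · right
    refine rm_eq B (q := m) ?_ ?_
    · rw [B.p2_succ]
      exact add_lt_add_of_lt_of_le h1 le_rfl
    · conv_lhs => rw [hq, h]
      rw [B.p2_succ]
      ring

theorem rm_succ_ge (B : BinP p2 top la) (n R : N.M) : rm p2 n R ≤ rm p2 n (R + 1) := by
  rcases rm_step B n R with h | h
  · exact h.ge
  · rw [h]
    exact le_add_of_nonneg_right (zero_le' _)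

theorem rm_succ_le (B : BinP p2 top la) (n R : N.M) : rm p2 n (R + 1) ≤ rm p2 n R + p2 R := by
  rcases rm_step B n R with h | h
  · rw [h]
    exact le_add_of_nonneg_right (zero_le' _)
  · exact h.le

theorem rm_mono (B : BinP p2 top la) (n : N.M) {R R' : N.M} (h : R ≤ R') :
    rm p2 n R ≤ rm p2 n R' := by
  obtain ⟨d, rfl⟩ := exists_sub h
  have hp := B.hp2
  refine ind_D1 (P := fun d => rm p2 n R ≤ rm p2 n (R + d)) ?_ ?_ ?_ d
  · exact D1.le (DG.const _) (DG.app2 (rm_gf hp) (DG.const n) (DG.add (DG.const R) (DG.var 0)))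
  · rw [add_zero]
  · intro d hd
    rw [← add_assoc]
    exact hd.trans (rm_succ_ge B _ _)

theorem rm_add_dvd (B : BinP p2 top la) {n n' K R : N.M} (hd : p2 K ∣ n') (hR : R ≤ K) :
    rm p2 (n + n') R = rm p2 n R := by
  obtain ⟨h1, q, hq⟩ := rm_ex B n R
  obtain ⟨x, rfl⟩ := hd
  obtain ⟨d, rfl⟩ := exists_sub hR
  refine rm_eq B (q := q + p2 d * x) h1 ?_
  conv_lhs => rw [hq]
  rw [B.p2_add]
  ring

theorem rm_dvd (B : BinP p2 top la) {n K R : N.M} (hd : p2 K ∣ n) (hR : R ≤ K) :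
    rm p2 n R = 0 := by
  obtain ⟨x, rfl⟩ := hd
  obtain ⟨d, rfl⟩ := exists_sub hR
  refine rm_eq B (q := p2 d * x) (B.p2_pos R) ?_
  rw [B.p2_add]
  ring

theorem rm_add_high (B : BinP p2 top la) {n n' K R : N.M} (hn : n < p2 K) (hd : p2 K ∣ n')
    (hR : K ≤ R) : rm p2 (n + n') R = n + rm p2 n' R := by
  obtain ⟨h1, q, hq⟩ := rm_ex B n' R
  obtain ⟨d, rfl⟩ := exists_sub hR
  have h2 : p2 K ∣ rm p2 n' (K + d) := by
    have h3 : p2 K ∣ rm p2 n' (K + d) + p2 (K + d) * q := by rw [← hq]; exact hd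
    refine dvd_of_dvd_add h3 ?_
    rw [B.p2_add, mul_assoc]
    exact dvd_mul_right _ _
  obtain ⟨y, hy⟩ := h2
  have h4 : y < p2 d := by
    by_contra hcon
    have h5 : p2 K * p2 d ≤ p2 K * y := by
      have := not_lt.1 hcon
      gcongr
    rw [← hy, ← B.p2_add] at h5
    exact absurd h1 (not_lt.2 h5)
  refine rm_eq B (q := q) ?_ ?_
  · calc n + rm p2 n' (K + d) < p2 K + p2 K * y := by rw [hy]; gcongr
      _ = p2 K * (y + 1) := by ring
      _ ≤ p2 K * p2 d := by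
        have := succ_le' h4
        gcongr
      _ = p2 (K + d) := (B.p2_add _ _).symm
  · conv_lhs => rw [hq]
    ring

/-! ### levels and positions -/

theorem exists_lev (B : BinP p2 top la) {n j : N.M} (h : j < n) :
    ∃ i, i < n + 1 ∧ rm p2 n i ≤ j ∧ j < rm p2 n (i + 1) := by
  have hp := B.hp2
  obtain ⟨i, hi, h1, h2⟩ := lnp_S1 (P := fun i => j < rm p2 n (i + 1))
    (D1.lt (DG.const j) (DG.app2 (rm_gf hp) (DG.const n) (DG.add (DG.var 0) (DG.const 1)))).1 n
    (by rw [rm_of_lt B ((B.lt_p2 n).trans (B.p2_lt _ _ (lt1 n)))]; exact h)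
  refine ⟨i, lt1_of_le hi, ?_, h1⟩
  rcases eq_zero_or_succ i with h3 | ⟨k, h3⟩
  · rw [h3, rm_zero B]
    exact zero_le' _
  · rw [h3]
    exact not_lt.1 (h2 k (by rw [h3]; exact lt1 k))

/-- the level of `j` in the interval of length `n` -/
def Lev (p2 : N.M → N.M) (n j i : N.M) : Prop := rm p2 n i ≤ j ∧ j < rm p2 n (i + 1)

theorem lev_lt (B : BinP p2 top la) {n j i i' : N.M} (h : Lev p2 n j i) (h' : i' ≤ i) :
    rm p2 n i' ≤ j := (rm_mono B n h').trans h.1

theorem lev_mono (B : BinP p2 top la) {n j j' i i' : N.M} (h : Lev p2 n j i)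
    (h' : Lev p2 n j' i') (hj : j ≤ j') : i ≤ i' := by
  by_contra hcon
  have h1 := succ_le' (not_le.1 hcon)
  have h2 := lt_of_lt_of_le h'.2 (lev_lt B h h1)
  exact absurd hj (not_le.2 h2)

theorem lev_unique (B : BinP p2 top la) {n j i i' : N.M} (h : Lev p2 n j i)
    (h' : Lev p2 n j i') : i = i' :=
  le_antisymm (lev_mono B h h' le_rfl) (lev_mono B h' h le_rfl)

theorem lev_bd (B : BinP p2 top la) {n j i : N.M} (hj : j < n) (h : Lev p2 n j i) {K : N.M}
    (hK : n < p2 K) : i < K := by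
  by_contra hcon
  have h1 := h.1
  rw [rm_of_lt B (lt_of_lt_of_le hK (p2_le B (not_lt.1 hcon)))] at h1
  exact absurd hj (not_lt.2 h1)

/-- the position of `j` in the splitting of the interval of length `n` -/
noncomputable def pos (p2 : N.M → N.M) (n j : N.M) : N.M :=
  mu (fun z => n ≤ j ∨ ∃ i, i < n + 1 ∧ (rm p2 n i ≤ j ∧ (j < rm p2 n (i + 1) ∧
    z + rm p2 n i = p2 i + j)))

theorem pos_ex (B : BinP p2 top la) {n j : N.M} (h : j < n) :
    ∃ i z, i < n + 1 ∧ Lev p2 n j i ∧ z + rm p2 n i = p2 i + j := by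
  obtain ⟨i, h1, h2, h3⟩ := exists_lev B h
  obtain ⟨c, hc⟩ := exists_sub h2
  exact ⟨i, p2 i + c, h1, ⟨h2, h3⟩, by rw [hc]; ring⟩

theorem pos_gf (B : BinP p2 top la) : GF2 (pos p2) := by
  have hp := B.hp2
  have hr := rm_gf hp
  refine DG.mu (P := fun v z => v 0 ≤ v 1 ∨ ∃ i, i < v 0 + 1 ∧ (rm p2 (v 0) i ≤ v 1 ∧
    (v 1 < rm p2 (v 0) (i + 1) ∧ z + rm p2 (v 0) i = p2 i + v 1))) ?_ ?_
  · refine D1.or (D1.le (DG.var 1) (DG.var 2)) (D1.bex (DG.add (DG.var 1) (DG.const 1))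
      (D1.and ?_ (D1.and ?_ ?_)))
    · exact D1.le (DG.app2 hr (DG.var 2) (DG.var 0)) (DG.var 3)
    · exact D1.lt (DG.var 3) (DG.app2 hr (DG.var 2) (DG.add (DG.var 0) (DG.const 1)))
    · exact D1.eq (DG.add (DG.var 1) (DG.app2 hr (DG.var 2) (DG.var 0)))
        (DG.add (DG.app hp (DG.var 0)) (DG.var 3))
  · intro v
    rcases le_or_gt (v 0) (v 1) with h | h
    · exact ⟨0, Or.inl h⟩
    · obtain ⟨i, z, h1, h2, h3⟩ := pos_ex B h
      exact ⟨z, Or.inr ⟨i, h1, h2.1, h2.2, h3⟩⟩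

theorem pos_eq (B : BinP p2 top la) {n j i z : N.M} (hj : j < n) (h : Lev p2 n j i)
    (hz : z + rm p2 n i = p2 i + j) : pos p2 n j = z := by
  have hi : i < n + 1 := (lev_bd B hj h (B.lt_p2 n)).trans (lt1 n)
  refine mu_eq (Or.inr ⟨i, hi, h.1, h.2, hz⟩) ?_
  rintro y hy (h1 | ⟨i', -, h1, h2, h3⟩)
  · exact absurd hj (not_lt.2 h1)
  · have := lev_unique B h ⟨h1, h2⟩
    subst this
    rw [← hz] at h3
    exact absurd (add_right_cancel h3) hy.ne

theorem pos_spec (B : BinP p2 top la) {n j : N.M} (hj : j < n) :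
    ∃ i, Lev p2 n j i ∧ pos p2 n j + rm p2 n i = p2 i + j := by
  obtain ⟨i, z, -, h2, h3⟩ := pos_ex B hj
  rw [pos_eq B hj h2 h3]
  exact ⟨i, h2, h3⟩

theorem pos_bd (B : BinP p2 top la) {n j i z : N.M} (h : Lev p2 n j i)
    (hz : z + rm p2 n i = p2 i + j) : p2 i ≤ z ∧ z < p2 (i + 1) := by
  constructor
  · have h1 : p2 i + rm p2 n i ≤ z + rm p2 n i := by
      rw [hz]
      have := h.1
      gcongr
    exact le_of_add_le_add_right h1
  · have h1 : z + rm p2 n i < p2 (i + 1) + rm p2 n i := by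
      rw [hz]
      have h2 := lt_of_lt_of_le h.2 (rm_succ_le B n i)
      calc p2 i + j < p2 i + (rm p2 n i + p2 i) := by gcongr
        _ = p2 (i + 1) + rm p2 n i := by rw [B.p2_succ]; ring
    exact lt_of_add_lt_add_right h1

theorem pos_mono (B : BinP p2 top la) {n j j' : N.M} (hj : j < j') (hj' : j' < n) :
    pos p2 n j < pos p2 n j' := by
  obtain ⟨i, h1, h2⟩ := pos_spec B (hj.trans hj')
  obtain ⟨i', h1', h2'⟩ := pos_spec B hj'
  rcases lt_or_eq_of_le (lev_mono B h1 h1' hj.le) with h3 | h3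
  · calc pos p2 n j < p2 (i + 1) := (pos_bd B h1 h2).2
      _ ≤ p2 i' := p2_le B (succ_le' h3)
      _ ≤ pos p2 n j' := (pos_bd B h1' h2').1
  · subst h3
    have h4 : pos p2 n j + rm p2 n i < pos p2 n j' + rm p2 n i := by
      rw [h2, h2']
      gcongr
    exact lt_of_add_lt_add_right h4

theorem pos_inj (B : BinP p2 top la) {n j j' : N.M} (hj : j < n) (hj' : j' < n)
    (h : pos p2 n j = pos p2 n j') : j = j' := by
  rcases lt_trichotomy j j' with h1 | h1 | h1
  · exact absurd h (pos_mono B h1 hj').ne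
  · exact h1
  · exact absurd h.symm (pos_mono B h1 hj).ne

theorem pos_lt (B : BinP p2 top la) {n j K : N.M} (hj : j < n) (hK : n < p2 K) :
    pos p2 n j < p2 K := by
  obtain ⟨i, h1, h2⟩ := pos_spec B hj
  exact lt_of_lt_of_le (pos_bd B h1 h2).2 (p2_le B (succ_le' (lev_bd B hj h1 hK)))

theorem lev_ge (B : BinP p2 top la) {n j K i : N.M} (hK : p2 K ∣ n) (h : Lev p2 n j i) :
    K ≤ i := by
  by_contra hcon
  have h3 := h.2
  rw [rm_dvd B hK (succ_le' (not_le.1 hcon))] at h3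
  exact absurd h3 (not_lt.2 (zero_le' _))

theorem le_pos (B : BinP p2 top la) {n j K : N.M} (hj : j < n) (hK : p2 K ∣ n) :
    p2 K ≤ pos p2 n j := by
  obtain ⟨i, h1, h2⟩ := pos_spec B hj
  exact (p2_le B (lev_ge B hK h1)).trans (pos_bd B h1 h2).1

theorem pos_left (B : BinP p2 top la) {n n' j K : N.M} (hn : n < p2 K) (hK : p2 K ∣ n')
    (hj : j < n) : pos p2 (n + n') j = pos p2 n j := by
  obtain ⟨i, h1, h2⟩ := pos_spec B hj
  have hi := lev_bd B hj h1 hn
  refine pos_eq B (i := i) (lt_of_lt_of_le hj (le_add_of_nonneg_right (zero_le' _))) ⟨?_, ?_⟩ ?_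
  · rw [rm_add_dvd B hK hi.le]
    exact h1.1
  · rw [rm_add_dvd B hK (succ_le' hi)]
    exact h1.2
  · rw [rm_add_dvd B hK hi.le]
    exact h2

theorem pos_right (B : BinP p2 top la) {n n' j K : N.M} (hn : n < p2 K) (hK : p2 K ∣ n')
    (hj : j < n') : pos p2 (n + n') (n + j) = pos p2 n' j := by
  obtain ⟨i, h1, h2⟩ := pos_spec B hj
  have hi := lev_ge B hK h1
  have e1 := rm_add_high B hn hK hi
  have e2 := rm_add_high B hn hK (hi.trans (lt1 i).le)
  refine pos_eq B (i := i) (by gcongr) ⟨?_, ?_⟩ ?_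
  · rw [e1]
    have := h1.1
    gcongr
  · rw [e2]
    have := h1.2
    gcongr
  · rw [e1]
    calc pos p2 n' j + (n + rm p2 n' i) = (pos p2 n' j + rm p2 n' i) + n := by ring
      _ = p2 i + j + n := by rw [h2]
      _ = p2 i + (n + j) := by ring

end Run7.h563
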