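import Mathlib
import Pool.Agent.Run7.h563.Digits
import Pool.Agent.Run7.h563.Defs

/-!
Elementary facts about the codes of words and located words.
-/

namespace Run7.h563

open Pool.Agent.Helper617.RM Pool.Agent.H645R2.R

universe u

set_option linter.unusedSectionVars false
set_option linter.unusedVariables false

variable {N : L2Structure.{u}} [IsModelRCA0 N]

theorem funIn_iff {f : N.M → N.M} : FunIn N f ↔ GF f := by
  constructor
  · intro h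
    exact D0.of_codeRel (R := fun x y => y = f x) h
  · intro h
    exact codeRel_mem_D0 (R := fun x y => y = f x) h

theorem entry_iff {u n i x : N.M} (hu : IsSq u n) : Entry N u i x ↔ i < n ∧ x = ent u i := by
  constructor
  · rintro ⟨n', f, h1, h2, h3⟩
    obtain ⟨h4, h5⟩ := isSeq_iff.1 h1
    have := h4.len_unique hu
    subst this
    exact ⟨h2, by rw [ent_eq hu (h5 i h2), h3]⟩
  · rintro ⟨h1, h2⟩
    exact ⟨n, ent u, isSeq_iff.2 ⟨hu, fun i hi => ent_mem hu hi⟩, h1, h2⟩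

theorem words_iff {a u : N.M} : u ∈ Words N a ↔ IsSq u (len u) ∧ ∀ i, i < len u → ent u i < a := by
  constructor
  · rintro ⟨n, f, h1, h2⟩
    obtain ⟨h4, h5⟩ := isSeq_iff.1 h1
    rw [len_eq h4]
    exact ⟨h4, fun i hi => by rw [ent_eq h4 (h5 i hi)]; exact h2 i hi⟩
  · rintro ⟨h1, h2⟩
    exact ⟨len u, ent u, isSeq_iff.2 ⟨h1, fun i hi => ent_mem h1 hi⟩, h2⟩

theorem varWords_iff {a u : N.M} : u ∈ VarWords N a ↔ IsSq u (len u) ∧
    (∀ i, i < len u → ent u i ≤ a) ∧ ∃ i, i < len u ∧ ent u i = a := by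
  constructor
  · rintro ⟨n, f, h1, h2, i, h3, h4⟩
    obtain ⟨h5, h6⟩ := isSeq_iff.1 h1
    rw [len_eq h5]
    exact ⟨h5, fun i hi => by rw [ent_eq h5 (h6 i hi)]; exact le_iff_lt_or_eq.2 (h2 i hi), i, h3,
      by rw [ent_eq h5 (h6 i h3)]; exact h4⟩
  · rintro ⟨h1, h2, i, h3, h4⟩
    exact ⟨len u, ent u, isSeq_iff.2 ⟨h1, fun i hi => ent_mem h1 hi⟩,
      fun i hi => le_iff_lt_or_eq.1 (h2 i hi), i, h3, h4⟩

theorem words_D1 (a : N.M) : D1 (fun v : Ctx N => v 0 ∈ Words N a) := by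
  refine D1.congr (R := fun v => IsSq (v 0) (len (v 0)) ∧ ∀ i, i < len (v 0) → ent (v 0) i < a)
    ?_ fun v => words_iff.symm
  refine D1.and (D1.IsSq (DG.var 0) (DG.app len_gf (DG.var 0)))
    (D1.ball (DG.app len_gf (DG.var 0)) ?_)
  exact D1.lt (DG.app2 ent_gf (DG.var 1) (DG.var 0)) (DG.const a)

/-! ### located words -/

theorem val_iff {p i x : N.M} (hp : IsC p) : Val N p i x ↔ MemC (pr i x) p := by
  constructor
  · rintro ⟨F, h1, h2⟩
    exact ((isCode_iff.1 h1).2 _).1 h2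
  · intro h
    exact ⟨{r | MemC r p}, (isC_set hp).2.2, h⟩

theorem Val.isC {p i x : N.M} (h : Val N p i x) : IsC p := by
  obtain ⟨F, h1, h2⟩ := h
  exact (isCode_iff.1 h1).1

theorem isFinFun_iff {V : N.M → Prop} {p : N.M} : IsFinFun N V p ↔ IsC p ∧ (∃ r, MemC r p) ∧
    (∀ r, MemC r p → ∃ i x, V x ∧ r = pr i x) ∧
    ∀ i x y, MemC (pr i x) p → MemC (pr i y) p → x = y := by
  constructor
  · rintro ⟨F, h1, ⟨r, hr⟩, h3, h4⟩
    obtain ⟨a1, a2⟩ := isCode_iff.1 h1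
    refine ⟨a1, ⟨r, (a2 r).1 hr⟩, fun r hr => h3 r ((a2 r).2 hr), fun i x y hx hy =>
      h4 i x y ((a2 _).2 hx) ((a2 _).2 hy)⟩
  · rintro ⟨h1, ⟨r, hr⟩, h3, h4⟩
    exact ⟨{r | MemC r p}, (isC_set h1).2.2, ⟨r, hr⟩, h3, h4⟩

theorem finFun_D1 (a : N.M) : D1 (fun v : Ctx N => IsFinFun N (fun x => x < a) (v 0)) := by
  refine D1.congr (R := fun v => IsC (v 0) ∧ (∃ r, r < v 0 ∧ MemC r (v 0)) ∧
    (∀ r, r < v 0 → (MemC r (v 0) → ∃ i, i < v 0 ∧ ∃ x, x < a ∧ r = pr i x)) ∧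
    ∀ i, i < v 0 → ∀ x, x < v 0 → ∀ y, y < v 0 → MemC (pr i x) (v 0) → MemC (pr i y) (v 0) →
      x = y) ?_ fun v => ?_
  · refine D1.and (D1.IsC (DG.var 0)) (D1.and (D1.bex (DG.var 0) (D1.MemC (DG.var 0) (DG.var 1)))
      (D1.and (D1.ball (DG.var 0) (D1.imp (D1.MemC (DG.var 0) (DG.var 1)) (D1.bex (DG.var 1)
        (D1.bex (DG.const a) (D1.eq (DG.var 2) (DG.pr (DG.var 1) (DG.var 0)))))))
      (D1.ball (DG.var 0) (D1.ball (DG.var 1) (D1.ball (DG.var 2) (D1.imp ?_ (D1.imp ?_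
        (D1.eq (DG.var 1) (DG.var 0)))))))))
    · exact D1.MemC (DG.pr (DG.var 2) (DG.var 1)) (DG.var 3)
    · exact D1.MemC (DG.pr (DG.var 2) (DG.var 0)) (DG.var 3)
  · rw [isFinFun_iff]
    constructor
    · rintro ⟨h1, ⟨r, _, hr⟩, h3, h4⟩
      refine ⟨h1, ⟨r, hr⟩, fun r hr => ?_, fun i x y hx hy => h4 i hx.fst_lt x hx.snd_lt y
        hy.snd_lt hx hy⟩
      obtain ⟨i, _, x, hx, e⟩ := h3 r hr.lt hr
      exact ⟨i, x, hx, e⟩
    · rintro ⟨h1, ⟨r, hr⟩, h3, h4⟩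
      refine ⟨h1, ⟨r, hr.lt, hr⟩, fun r _ hr => ?_, fun i _ x _ y _ hx hy => h4 i x y hx hy⟩
      obtain ⟨i, x, hx, e⟩ := h3 r hr
      subst e
      exact ⟨i, hr.fst_lt, x, hx, rfl⟩

theorem loc_D1 (a : N.M) : D1 (fun v : Ctx N => v 0 ∈ Loc N a) := finFun_D1 a

theorem varLoc_iff {a p : N.M} : p ∈ VarLoc N a ↔ IsFinFun N (fun x => x < a + 1) p ∧
    ∃ i, MemC (pr i a) p := by
  have h : (fun x : N.M => N.lt x a ∨ x = a) = fun x => x < a + 1 := by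
    funext x
    exact propext (by rw [lt_add_one_iff', le_iff_lt_or_eq]; rfl)
  show (IsFinFun N (fun x => N.lt x a ∨ x = a) p ∧ ∃ i, Val N p i a) ↔ _
  rw [h]
  constructor
  · rintro ⟨h1, i, h2⟩
    exact ⟨h1, i, (val_iff (isFinFun_iff.1 h1).1).1 h2⟩
  · rintro ⟨h1, i, h2⟩
    exact ⟨h1, i, (val_iff (isFinFun_iff.1 h1).1).2 h2⟩

theorem varLoc_D1 (a : N.M) : D1 (fun v : Ctx N => v 0 ∈ VarLoc N a) := by
  refine D1.congr (R := fun v => IsFinFun N (fun x => x < a + 1) (v 0) ∧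
    ∃ i, i < v 0 ∧ MemC (pr i a) (v 0)) ?_ fun v => ?_
  · exact D1.and (finFun_D1 (a + 1)) (D1.bex (DG.var 0)
      (D1.MemC (DG.pr (DG.var 0) (DG.const a)) (DG.var 1)))
  · rw [varLoc_iff]
    constructor
    · rintro ⟨h1, i, _, h2⟩
      exact ⟨h1, i, h2⟩
    · rintro ⟨h1, i, h2⟩
      exact ⟨h1, i, h2.fst_lt, h2⟩

/-! ### colourings -/

theorem isCol_of {D : Set N.M} {k : N.M} {g : N.M → N.M} (hD : D1 (fun v => v 0 ∈ D))
    (hg : GF g) (hk : ∀ p ∈ D, g p < k) : IsCol N D k g := by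
  refine ⟨hk, ?_⟩
  have h : D1 (fun v : Ctx N => ∃ p, p < v 0 + 1 ∧ (p ∈ D ∧ v 0 = pr p (g p))) := by
    refine D1.bex (DG.add (DG.var 0) (DG.const 1)) (D1.and ?_ ?_)
    · exact D1.app1 (R := fun p => p ∈ D) hD (DG.var 0)
    · exact D1.eq (DG.var 1) (DG.pr (DG.var 0) (DG.app hg (DG.var 0)))
  have e : {r | ∃ p ∈ D, r = N.pair p (g p)} = {r | ∃ p, p < r + 1 ∧ (p ∈ D ∧ r = pr p (g p))} := by
    ext r
    constructor
    · rintro ⟨p, hp, e⟩
      have e' : r = pr p (g p) := e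
      exact ⟨p, lt1_of_le (by rw [e']; exact fst_le_pr _ _), hp, e'⟩
    · rintro ⟨p, _, hp, e⟩
      exact ⟨p, hp, e⟩
  rw [e]
  exact comp_D1 h.1 h.2

open Classical in
theorem exists_total_col {D : Set N.M} {k : N.M} {c : N.M → N.M} (hD : D1 (fun v => v 0 ∈ D))
    (hc : IsCol N D k c) : GF (fun p => if p ∈ D then c p else 0) := by
  refine GF.graph ?_
  refine D1.congr (R := fun v => (v 0 ∈ D ∧
    pr (v 0) (v 1) ∈ {r | ∃ p ∈ D, r = N.pair p (c p)}) ∨ (¬ v 0 ∈ D ∧ v 1 = 0)) ?_ fun v => ?_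
  · exact D1.or (D1.and hD (D1.mem (DG.pr (DG.var 0) (DG.var 1)) hc.2))
      (D1.and hD.not (D1.eq (DG.var 1) (DG.const 0)))
  · by_cases h : v 0 ∈ D
    · simp only [h, if_true, true_and, not_true_eq_false, false_and, or_false]
      constructor
      · rintro ⟨p, _, e⟩
        have e' : pr (v 0) (v 1) = pr p (c p) := e
        obtain ⟨e1, e2⟩ := pr_inj e'
        rw [e2, e1]
      · intro e
        exact ⟨v 0, h, by rw [e]; rfl⟩
    · simp [h]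

theorem repl_gf : GF3 (repl N) := by
  unfold GF3 repl
  exact DG.ite (R := fun v => v 2 = v 0) (D1.eq (DG.var 2) (DG.var 0)) (DG.var 1) (DG.var 2)

theorem repl_lt {a b x : N.M} (hb : b < a) (hx : x ≤ a) : repl N a b x < a := by
  unfold repl
  split_ifs with h
  · exact hb
  · exact lt_of_le_of_ne hx h

end Run7.h563
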