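import Mathlib
import Pool.Agent.Run7.h563.Words

/-!
Concatenations along a finite set of indices.
-/

namespace Run7.h563

open Pool.Agent.Helper617.RM Pool.Agent.H645R2.R

universe u

set_option linter.unusedSectionVars false
set_option linter.unusedVariables false

variable {N : L2Structure.{u}} [IsModelRCA0 N]

/-- counting the elements of a set -/
structure Count (F : N.M → Prop) (κ : N.M → N.M) : Prop where
  gf : GF κ
  zero : κ 0 = 0
  yes : ∀ n, F n → κ (n + 1) = κ n + 1
  no : ∀ n, ¬ F n → κ (n + 1) = κ n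

theorem exists_sum {F : N.M → Prop} (hF : D1 (fun v => F (v 0))) {g : N.M → N.M} (hg : GF g) :
    ∃ l : N.M → N.M, GF l ∧ l 0 = 0 ∧ (∀ n, F n → l (n + 1) = l n + g n) ∧
      ∀ n, ¬ F n → l (n + 1) = l n := by
  classical
  obtain ⟨l, h1, h2, h3⟩ := exists_rec2 (st := fun n y => if F n then y + g n else y)
    (DG.ite (R := fun v => F (v 0)) hF (DG.add (DG.var 1) (DG.app hg (DG.var 0))) (DG.var 1)) 0
  refine ⟨l, h1, h2, fun n hn => ?_, fun n hn => ?_⟩
  · rw [h3]; simp [hn]
  · rw [h3]; simp [hn]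

theorem exists_count {F : N.M → Prop} (hF : D1 (fun v => F (v 0))) : ∃ κ, Count F κ := by
  obtain ⟨l, h1, h2, h3, h4⟩ := exists_sum hF (g := fun _ => 1) (GF.of (DG.const 1))
  exact ⟨l, h1, h2, h3, h4⟩

theorem mono_of_step {l : N.M → N.M} (hl : GF l) (h : ∀ n, l n ≤ l (n + 1)) {n m : N.M}
    (hnm : n ≤ m) : l n ≤ l m := by
  obtain ⟨d, rfl⟩ := exists_sub hnm
  refine ind_D1 (P := fun d => l n ≤ l (n + d)) ?_ ?_ ?_ d
  · exact D1.le (DG.const _) (DG.app hl (DG.add (DG.const n) (DG.var 0)))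
  · rw [add_zero]
  · intro d hd
    rw [← add_assoc]
    exact hd.trans (h _)

namespace Count

variable {F : N.M → Prop} {κ : N.M → N.M}

theorem step (h : Count F κ) (n : N.M) : κ n ≤ κ (n + 1) := by
  by_cases hn : F n
  · rw [h.yes n hn]
    exact (lt1 _).le
  · rw [h.no n hn]

theorem mono (h : Count F κ) {n m : N.M} (hnm : n ≤ m) : κ n ≤ κ m := mono_of_step h.gf h.step hnm

theorem lt_of (h : Count F κ) {n m : N.M} (hn : F n) (hnm : n < m) : κ n < κ m := by
  have h1 := h.mono (succ_le' hnm)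
  rw [h.yes n hn] at h1
  exact lt_of_lt_of_le (lt1 _) h1

theorem inj (h : Count F κ) {n m : N.M} (hn : F n) (hm : F m) (e : κ n = κ m) : n = m := by
  rcases lt_trichotomy n m with h1 | h1 | h1
  · exact absurd e (h.lt_of hn h1).ne
  · exact h1
  · exact absurd e (h.lt_of hm h1).ne'

theorem exists_of_lt (h : Count F κ) (hF : D1 (fun v => F (v 0))) (b : N.M) :
    ∀ i, i < κ b → ∃ n, n < b ∧ (F n ∧ κ n = i) := by
  refine ind_D1 (P := fun b => ∀ i, i < κ b → ∃ n, n < b ∧ (F n ∧ κ n = i)) ?_ ?_ ?_ b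
  · refine D1.ball (DG.app h.gf (DG.var 0)) (D1.bex (DG.var 1) (D1.and ?_ ?_))
    · exact D1.app1 (R := fun n => F n) hF (DG.var 0)
    · exact D1.eq (DG.app h.gf (DG.var 0)) (DG.var 1)
  · intro i hi
    rw [h.zero] at hi
    exact absurd hi (not_lt.2 (zero_le' _))
  · intro b ih i hi
    by_cases hb : F b
    · rw [h.yes b hb] at hi
      rcases lt_or_eq_of_le (le_of_lt1 hi) with h1 | h1
      · obtain ⟨n, h2, h3⟩ := ih i h1
        exact ⟨n, h2.trans (lt1 b), h3⟩
      · exact ⟨b, lt1 b, hb, h1.symm⟩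
    · rw [h.no b hb] at hi
      obtain ⟨n, h2, h3⟩ := ih i hi
      exact ⟨n, h2.trans (lt1 b), h3⟩

/-- functions that only change at the elements of `F` factor through `κ` -/
theorem factor (h : Count F κ) {l : N.M → N.M} (hl : GF l) (hno : ∀ n, ¬ F n → l (n + 1) = l n)
    {n m : N.M} (e : κ n = κ m) : l n = l m := by
  have key : ∀ n d : N.M, κ (n + d) = κ n → l (n + d) = l n := by
    intro n d
    refine ind_D1 (P := fun d => κ (n + d) = κ n → l (n + d) = l n) ?_ ?_ ?_ d
    · refine D1.imp (D1.eq (DG.app h.gf (DG.add (DG.const n) (DG.var 0))) (DG.const _))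
        (D1.eq (DG.app hl (DG.add (DG.const n) (DG.var 0))) (DG.const _))
    · intro _
      rw [add_zero]
    · intro d hd e
      rw [← add_assoc] at e ⊢
      by_cases hF : F (n + d)
      · rw [h.yes _ hF] at e
        have h1 : κ n ≤ κ (n + d) := h.mono (le_add_of_nonneg_right (zero_le' _))
        rw [← e] at h1
        exact absurd (lt1 _) (not_lt.2 h1)
      · rw [h.no _ hF] at e
        rw [hno _ hF]
        exact hd e
  rcases le_total n m with h1 | h1
  · obtain ⟨d, rfl⟩ := exists_sub h1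
    exact (key n d e.symm).symm
  · obtain ⟨d, rfl⟩ := exists_sub h1
    exact key m d e

end Count

theorem wordSpan_of_set {a b : N.M} {w : N.M → N.M}
    (hlen : ∀ n, IsSq (w n) (len (w n))) {F : N.M → Prop} (hF : D1 (fun v => F (v 0)))
    (hne : ∃ n, F n) (hb : ∀ n, F n → n < b) {α l : N.M → N.M} (hα : GF α) (hl : GF l)
    (hαa : ∀ n, F n → α n < a) (h0 : l 0 = 0) (hno : ∀ n, ¬ F n → l (n + 1) = l n)
    (hyes : ∀ n, F n → l (n + 1) = l n + len (w n)) {u : N.M} (hu : IsSq u (l b))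
    (hlet : ∀ n, F n → ∀ o, o < len (w n) →
      ent u (l n + o) = repl N a (α n) (ent (w n) o)) : u ∈ WordSpan N a w := by
  classical
  obtain ⟨κ, hκ⟩ := exists_count hF
  -- the enumeration
  have hν0 : DG (fun v : Ctx N => mu (fun n => b < n + 1 ∨ (F n ∧ κ n = v 0))) := by
    refine DG.mu (P := fun v n => b < n + 1 ∨ (F n ∧ κ n = v 0)) ?_ ?_
    · refine D1.or (D1.lt (DG.const b) (DG.add (DG.var 0) (DG.const 1))) (D1.and ?_ ?_)
      · exact D1.app1 (R := fun n => F n) hF (DG.var 0)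
      · exact D1.eq (DG.app hκ.gf (DG.var 0)) (DG.var 1)
    · intro v
      exact ⟨b, Or.inl (lt1 b)⟩
  set ν : N.M → N.M := fun i => mu (fun n => b < n + 1 ∨ (F n ∧ κ n = i)) with hν
  have hνgf : GF ν := GF.of hν0
  have hνeq : ∀ n, F n → ν (κ n) = n := by
    intro n hn
    refine mu_eq (Or.inr ⟨hn, rfl⟩) ?_
    rintro m hm (h1 | ⟨h1, h2⟩)
    · exact absurd (lt_of_lt_of_le h1 (succ_le' hm)) (not_lt.2 (hb n hn).le)
    · exact absurd (hκ.inj h1 hn h2) hm.ne
  have hνF : ∀ i, i < κ b → F (ν i) ∧ κ (ν i) = i := by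
    intro i hi
    obtain ⟨n, h1, h2, h3⟩ := hκ.exists_of_lt hF b i hi
    rw [← h3, hνeq n h2]
    exact ⟨h2, rfl⟩
  have hkpos : 0 < κ b := by
    obtain ⟨n, hn⟩ := hne
    exact lt_of_le_of_lt (zero_le' _) (hκ.lt_of hn (hb n hn))
  set L : N.M → N.M := fun i => if i < κ b then l (ν i) else l b with hL
  have hLgf : GF L := GF.of (DG.ite (R := fun v => v 0 < κ b)
    (D1.lt (DG.var 0) (DG.const _)) (DG.app hl (DG.app hνgf (DG.var 0))) (DG.const _))
  have hLval : ∀ i, i < κ b → L i = l (ν i) := fun i hi => if_pos hi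
  have hLend : L (κ b) = l b := if_neg (lt_irrefl _)
  have hLn : ∀ i, i < κ b → L (i + 1) = l (ν i + 1) := by
    intro i hi
    obtain ⟨h1, h2⟩ := hνF i hi
    have h3 : κ (ν i + 1) = i + 1 := by rw [hκ.yes _ h1, h2]
    rcases lt_or_eq_of_le (succ_le' hi) with h4 | h4
    · rw [hLval _ h4]
      refine hκ.factor hl hno ?_
      rw [h3]
      exact (hνF _ h4).2
    · rw [h4, hLend]
      refine hκ.factor hl hno ?_
      rw [h3, h4]
  refine ⟨κ b, ν, fun i => α (ν i), L, funIn_iff.2 hνgf,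
    funIn_iff.2 (GF.of (DG.app hα (DG.app hνgf (DG.var 0)))), funIn_iff.2 hLgf, hkpos,
    ?_, ?_, ?_, ?_, ?_⟩
  · intro i j hij hj
    have hij' : i < j := hij
    have hj' : j < κ b := hj
    show ν i < ν j
    by_contra hcon
    have h1 := hκ.mono (not_lt.1 hcon)
    rw [(hνF j hj').2, (hνF i (hij'.trans hj')).2] at h1
    exact absurd hij' (not_lt.2 h1)
  · intro i hi
    exact hαa _ (hνF i hi).1
  · show L 0 = 0
    refine (hLval 0 hkpos).trans (Eq.trans ?_ h0)
    refine hκ.factor hl hno ?_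
    rw [(hνF 0 hkpos).2, hκ.zero]
  · intro i hi
    refine ⟨len (w (ν i)), hasLen_iff.2 (hlen _), ?_, ?_⟩
    · show L (i + 1) = L i + len (w (ν i))
      rw [hLn i hi, hLval i hi]
      exact hyes _ (hνF i hi).1
    · intro j x hjx
      obtain ⟨h1, h2⟩ := (entry_iff (hlen _)).1 hjx
      refine (entry_iff hu).2 ⟨?_, ?_⟩
      · show L i + j < l b
        have hνb := hb _ (hνF i hi).1
        have hmono : ∀ n, l n ≤ l (n + 1) := by
          intro n
          by_cases hn : F n
          · rw [hyes n hn]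
            exact le_add_of_nonneg_right (zero_le' _)
          · rw [hno n hn]
        have h3 := mono_of_step hl hmono (succ_le' hνb)
        rw [hyes _ (hνF i hi).1] at h3
        rw [hLval i hi]
        refine lt_of_lt_of_le ?_ h3
        gcongr
      · show repl N a (α (ν i)) x = ent u (L i + j)
        rw [hLval i hi, hlet _ (hνF i hi).1 j h1, h2]
  · exact hasLen_iff.2 (by
      show IsSq u (L (κ b))
      rw [hLend]
      exact hu)

end Run7.h563
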