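import Mathlib
import Pool.Agent.Run7.h563.Span

/-!
The block sequence of located variable words obtained from a sequence of variable words.
-/

namespace Run7.h563

open Pool.Agent.Helper617.RM Pool.Agent.H645R2.R

universe u

set_option linter.unusedSectionVars false
set_option linter.unusedVariables false

variable {N : L2Structure.{u}} [IsModelRCA0 N]

/-- prefix sums of the lengths of the words `w n` -/
structure Pre (w L : N.M → N.M) : Prop where
  hw : GF w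
  hlen : ∀ n, IsSq (w n) (len (w n))
  hpos : ∀ n, 0 < len (w n)
  hL : GF L
  L0 : L 0 = 0
  Ls : ∀ n, L (n + 1) = L n + len (w n)

namespace Pre

variable {w L : N.M → N.M}

theorem lt_succ (h : Pre w L) (n : N.M) : L n < L (n + 1) := by
  rw [h.Ls]
  exact lt_add_of_pos_right _ (h.hpos n)

theorem mono (h : Pre w L) {n m : N.M} (hnm : n ≤ m) : L n ≤ L m :=
  mono_of_step h.hL (fun n => (h.lt_succ n).le) hnm

theorem strict (h : Pre w L) {n m : N.M} (hnm : n < m) : L n < L m :=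
  lt_of_lt_of_le (h.lt_succ n) (h.mono (succ_le' hnm))

theorem le_self (h : Pre w L) (n : N.M) : n ≤ L n := by
  refine ind_D1 (P := fun n => n ≤ L n) (D1.le (DG.var 0) (DG.app h.hL (DG.var 0))) ?_ ?_ n
  · exact zero_le' _
  · intro n hn
    exact succ_le' (lt_of_le_of_lt hn (h.lt_succ n))

theorem lt_of_lt (h : Pre w L) {n m : N.M} (hnm : L n < L m) : n < m := by
  by_contra hcon
  exact absurd hnm (not_lt.2 (h.mono (not_lt.1 hcon)))

/-- every number lies in exactly one interval `[L n, L (n+1))` -/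
theorem locate (h : Pre w L) (x : N.M) : ∃ n, L n ≤ x ∧ x < L (n + 1) := by
  obtain ⟨n, -, h1, h2⟩ := lnp_S1 (P := fun n => x < L (n + 1))
    (D1.lt (DG.const x) (DG.app h.hL (DG.add (DG.var 0) (DG.const 1)))).1 x
    (lt_of_le_of_lt (h.le_self x) (h.lt_succ x))
  refine ⟨n, ?_, h1⟩
  rcases eq_zero_or_succ n with h3 | ⟨k, h3⟩
  · rw [h3, h.L0]
    exact zero_le' _
  · rw [h3]
    exact not_lt.1 (h2 k (by rw [h3]; exact lt1 k))

theorem locate_unique (h : Pre w L) {x n m : N.M} (h1 : L n ≤ x) (h2 : x < L (n + 1))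
    (h3 : L m ≤ x) (h4 : x < L (m + 1)) : n = m := by
  have a1 := le_of_lt1 (h.lt_of_lt (lt_of_le_of_lt h1 h4))
  have a2 := le_of_lt1 (h.lt_of_lt (lt_of_le_of_lt h3 h2))
  exact le_antisymm a1 a2

/-- the infinite concatenation of the words `w n` -/
theorem exists_W (h : Pre w L) : ∃ W : N.M → N.M, GF W ∧
    ∀ n o, o < len (w n) → W (L n + o) = ent (w n) o := by
  have hix : DG (fun v : Ctx N => mu (fun n => v 0 < L (n + 1))) := by
    refine DG.mu (P := fun v n => v 0 < L (n + 1)) ?_ ?_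
    · exact D1.lt (DG.var 1) (DG.app h.hL (DG.add (DG.var 0) (DG.const 1)))
    · intro v
      obtain ⟨n, -, h2⟩ := h.locate (v 0)
      exact ⟨n, h2⟩
  have hixgf : GF (fun x : N.M => mu (fun n => x < L (n + 1))) := GF.of hix
  have hixeq : ∀ x n : N.M, L n ≤ x → x < L (n + 1) → mu (fun n => x < L (n + 1)) = n := by
    intro x n h1 h2
    refine mu_eq h2 fun m hm h3 => ?_
    exact absurd (lt_of_le_of_lt h1 h3) (not_lt.2 (h.mono (succ_le' hm)))
  refine ⟨fun x => ent (w (mu (fun n => x < L (n + 1)))) (sb x (L (mu (fun n => x < L (n + 1))))),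
    GF.of (DG.app2 ent_gf (DG.app h.hw (DG.app hixgf (DG.var 0)))
      (DG.app2 sb_gf (DG.var 0) (DG.app h.hL (DG.app hixgf (DG.var 0))))), ?_⟩
  intro n o ho
  have e := hixeq (L n + o) n (le_add_of_nonneg_right (zero_le' _)) (by rw [h.Ls]; gcongr)
  simp only [e]
  rw [add_comm, sb_add]

end Pre

variable {p2 top la : N.M → N.M}

/-- the length of the block number `m` -/
noncomputable def NN (L S tt : N.M → N.M) (m : N.M) : N.M := sb (L (tt (m + 1))) (L (S m))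

/-- blocks of consecutive words; the length of each block is divisible by a power of two which
is greater than the total length of all previous words -/
structure Blk (p2 w L S tt : N.M → N.M) : Prop extends Pre w L where
  hS : GF S
  htt : GF tt
  t0 : tt 0 = 0
  le : ∀ m, tt m ≤ S m
  lt : ∀ m, S m < tt (m + 1)
  dvd : ∀ m, p2 (L (tt m)) ∣ NN L S tt m

theorem D1.dvd {g g' : Ctx N → N.M} (hg : DG g) (hg' : DG g') : D1 (fun v => g v ∣ g' v) :=
  D1.app2 (R := fun a b => a ∣ b) (D1.of (D0.dvd (Tm.var 0) (Tm.var 1))) hg hg'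

theorem exists_block (B : BinP p2 top la) {w L : N.M → N.M} (h : Pre w L) (t : N.M) :
    ∃ e s, s < e ∧ t ≤ s ∧ p2 (L t) ∣ sb (L e) (L s) := by
  have hh : GF (fun x => rm p2 (L (t + x)) (L t)) :=
    GF.of (DG.app2 (rm_gf B.hp2) (DG.app h.hL (DG.add (DG.const t) (DG.var 0))) (DG.const _))
  obtain ⟨i, j, hij, -, e⟩ := php hh (p2 (L t)) (fun x _ => (rm_ex B _ _).1)
  refine ⟨t + j, t + i, by gcongr, le_add_of_nonneg_right (zero_le' _), ?_⟩
  obtain ⟨h1, q1, hq1⟩ := rm_ex B (L (t + i)) (L t)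
  obtain ⟨h2, q2, hq2⟩ := rm_ex B (L (t + j)) (L t)
  have hlt : L (t + i) < L (t + j) := h.strict (by gcongr)
  have hq : q1 ≤ q2 := by
    by_contra hcon
    have h3 : p2 (L t) * q2 ≤ p2 (L t) * q1 := by
      have := (not_le.1 hcon).le
      gcongr
    have h4 : L (t + j) ≤ L (t + i) := by
      rw [hq1, hq2]
      have e' : rm p2 (L (t + i)) (L t) = rm p2 (L (t + j)) (L t) := e
      rw [e']
      gcongr
    exact absurd hlt (not_lt.2 h4)
  obtain ⟨d, rfl⟩ := exists_sub hq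
  refine ⟨d, ?_⟩
  have h5 : L (t + j) = p2 (L t) * d + L (t + i) := by
    rw [hq2]
    conv_rhs => rw [hq1]
    have e' : rm p2 (L (t + i)) (L t) = rm p2 (L (t + j)) (L t) := e
    rw [e']
    ring
  rw [h5, sb_add]

theorem exists_blk (B : BinP p2 top la) {w L : N.M → N.M} (h : Pre w L) :
    ∃ S tt, Blk p2 w L S tt := by
  have hp := B.hp2
  -- ends of blocks
  have hE0 : DG (fun v : Ctx N => mu (fun e => ∃ s, s < e ∧ (v 0 ≤ s ∧
      p2 (L (v 0)) ∣ sb (L e) (L s)))) := by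
    refine DG.mu (P := fun v e => ∃ s, s < e ∧ (v 0 ≤ s ∧ p2 (L (v 0)) ∣ sb (L e) (L s))) ?_ ?_
    · refine D1.bex (DG.var 0) (D1.and (D1.le (DG.var 2) (DG.var 0)) ?_)
      exact D1.dvd (DG.app hp (DG.app h.hL (DG.var 2)))
        (DG.app2 sb_gf (DG.app h.hL (DG.var 1)) (DG.app h.hL (DG.var 0)))
    · intro v
      obtain ⟨e, s, h1, h2, h3⟩ := exists_block B h (v 0)
      exact ⟨e, s, h1, h2, h3⟩
  set E : N.M → N.M := fun t => mu (fun e => ∃ s, s < e ∧ (t ≤ s ∧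
      p2 (L t) ∣ sb (L e) (L s))) with hE
  have hEgf : GF E := GF.of hE0
  have hEspec : ∀ t, ∃ s, s < E t ∧ (t ≤ s ∧ p2 (L t) ∣ sb (L (E t)) (L s)) := by
    intro t
    refine (mu_spec (P := fun e => ∃ s, s < e ∧ (t ≤ s ∧ p2 (L t) ∣ sb (L e) (L s))) ?_ ?_).1
    · refine D1.bex (DG.var 0) (D1.and (D1.le (DG.const t) (DG.var 0)) ?_)
      exact D1.dvd (DG.const _) (DG.app2 sb_gf (DG.app h.hL (DG.var 1)) (DG.app h.hL (DG.var 0)))
    · obtain ⟨e, s, h1, h2, h3⟩ := exists_block B h t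
      exact ⟨e, s, h1, h2, h3⟩
  -- beginnings of blocks
  have hS0 : DG (fun v : Ctx N => mu (fun s => s < E (v 0) ∧ (v 0 ≤ s ∧
      p2 (L (v 0)) ∣ sb (L (E (v 0))) (L s)))) := by
    refine DG.mu (P := fun v s => s < E (v 0) ∧ (v 0 ≤ s ∧
      p2 (L (v 0)) ∣ sb (L (E (v 0))) (L s))) ?_ ?_
    · refine D1.and (D1.lt (DG.var 0) (DG.app hEgf (DG.var 1)))
        (D1.and (D1.le (DG.var 1) (DG.var 0)) ?_)
      exact D1.dvd (DG.app hp (DG.app h.hL (DG.var 1)))
        (DG.app2 sb_gf (DG.app h.hL (DG.app hEgf (DG.var 1))) (DG.app h.hL (DG.var 0)))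
    · intro v
      exact hEspec (v 0)
  set S : N.M → N.M := fun t => mu (fun s => s < E t ∧ (t ≤ s ∧
      p2 (L t) ∣ sb (L (E t)) (L s))) with hS
  have hSgf : GF S := GF.of hS0
  have hSspec : ∀ t, S t < E t ∧ (t ≤ S t ∧ p2 (L t) ∣ sb (L (E t)) (L (S t))) := by
    intro t
    refine (mu_spec (P := fun s => s < E t ∧ (t ≤ s ∧ p2 (L t) ∣ sb (L (E t)) (L s))) ?_ ?_).1
    · refine D1.and (D1.lt (DG.var 0) (DG.const _)) (D1.and (D1.le (DG.const t) (DG.var 0)) ?_)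
      exact D1.dvd (DG.const _) (DG.app2 sb_gf (DG.const _) (DG.app h.hL (DG.var 0)))
    · exact hEspec t
  obtain ⟨tt, h1, h2, h3⟩ := exists_rec2 (st := fun _ y => E y) (DG.app hEgf (DG.var 1)) 0
  refine ⟨fun m => S (tt m), tt, ⟨h, GF.of (DG.app hSgf (DG.app h1 (DG.var 0))), h1, h2,
    fun m => (hSspec (tt m)).2.1, fun m => ?_, fun m => ?_⟩⟩
  · rw [h3]
    exact (hSspec (tt m)).1
  · unfold NN
    rw [h3]
    exact (hSspec (tt m)).2.2

namespace Blk

variable {w L S tt : N.M → N.M}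

theorem tt_lt (h : Blk p2 w L S tt) (m : N.M) : tt m < tt (m + 1) :=
  lt_of_le_of_lt (h.le m) (h.lt m)

theorem tt_mono (h : Blk p2 w L S tt) {n m : N.M} (hnm : n ≤ m) : tt n ≤ tt m :=
  mono_of_step h.htt (fun n => (h.tt_lt n).le) hnm

theorem tt_strict (h : Blk p2 w L S tt) {n m : N.M} (hnm : n < m) : tt n < tt m :=
  lt_of_lt_of_le (h.tt_lt n) (h.tt_mono (succ_le' hnm))

theorem le_tt (h : Blk p2 w L S tt) (n : N.M) : n ≤ tt n := by
  refine ind_D1 (P := fun n => n ≤ tt n) (D1.le (DG.var 0) (DG.app h.htt (DG.var 0))) ?_ ?_ n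
  · exact zero_le' _
  · intro n hn
    exact succ_le' (lt_of_le_of_lt hn (h.tt_lt n))

theorem NN_add (h : Blk p2 w L S tt) (m : N.M) : NN L S tt m + L (S m) = L (tt (m + 1)) :=
  sb_add_cancel (h.toPre.mono (h.lt m).le)

theorem NN_pos (h : Blk p2 w L S tt) (m : N.M) : 0 < NN L S tt m := by
  refine Pool.Agent.Helper617.RM.pos_of_ne_zero fun h0 => ?_
  have h1 := h.NN_add m
  rw [h0, zero_add] at h1
  exact absurd h1 (h.toPre.strict (h.lt m)).ne

theorem NN_le (h : Blk p2 w L S tt) (m : N.M) : NN L S tt m ≤ L (tt (m + 1)) := by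
  rw [← h.NN_add m]
  exact le_add_of_nonneg_right (zero_le' _)

theorem NN_gf (h : Blk p2 w L S tt) : GF (NN L S tt) :=
  GF.of (DG.app2 sb_gf (DG.app h.hL (DG.app h.htt (DG.add (DG.var 0) (DG.const 1))))
    (DG.app h.hL (DG.app h.hS (DG.var 0))))

/-- the letter number `j` of the block number `m` belongs to one of the words of the block -/
theorem locate (h : Blk p2 w L S tt) {m j : N.M} (hj : j < NN L S tt m) :
    ∃ n o, S m ≤ n ∧ n < tt (m + 1) ∧ o < len (w n) ∧ L (S m) + j = L n + o := by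
  obtain ⟨n, h1, h2⟩ := h.toPre.locate (L (S m) + j)
  have h3 : L (S m) + j < L (tt (m + 1)) := by
    rw [← h.NN_add m, add_comm (NN L S tt m)]
    gcongr
  have h4 : S m ≤ n := by
    refine le_of_lt1 (h.toPre.lt_of_lt (lt_of_le_of_lt ?_ h2))
    exact le_add_of_nonneg_right (zero_le' _)
  have h5 : n < tt (m + 1) := h.toPre.lt_of_lt (lt_of_le_of_lt h1 h3)
  obtain ⟨o, ho⟩ := exists_sub h1
  refine ⟨n, o, h4, h5, ?_, ho⟩
  rw [ho, h.Ls] at h2
  exact lt_of_add_lt_add_left h2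

end Blk

/-- the located variable words `y m` -/
structure YSys (p2 w L S tt W y : N.M → N.M) : Prop extends Blk p2 w L S tt where
  hW : GF W
  W_eq : ∀ n o, o < len (w n) → W (L n + o) = ent (w n) o
  hy : GF y
  isC : ∀ m, IsC (y m)
  mem : ∀ m r, MemC r (y m) ↔ ∃ j, j < NN L S tt m ∧
    r = pr (pos p2 (NN L S tt m) j) (W (L (S m) + j))

theorem exists_ysys (B : BinP p2 top la) {w L : N.M → N.M} (h : Pre w L) :
    ∃ S tt W y, YSys p2 w L S tt W y := by
  obtain ⟨S, tt, hb⟩ := exists_blk B h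
  obtain ⟨W, hW, hW2⟩ := h.exists_W
  obtain ⟨y, hy, hy2⟩ := exists_im (n := NN L S tt)
    (F := fun m j => pr (pos p2 (NN L S tt m) j) (W (L (S m) + j))) hb.NN_gf
    (DG.pr (DG.app2 (pos_gf B) (DG.app hb.NN_gf (DG.var 0)) (DG.var 1))
      (DG.app hW (DG.add (DG.app hb.hL (DG.app hb.hS (DG.var 0))) (DG.var 1))))
  exact ⟨S, tt, W, y, ⟨hb, hW, hW2, hy, fun m => (hy2 m).1, fun m => (hy2 m).2⟩⟩

namespace YSys

variable {w L S tt W y : N.M → N.M}

theorem dom_lt (B : BinP p2 top la) (h : YSys p2 w L S tt W y) {m i x : N.M}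
    (hm : MemC (pr i x) (y m)) : i < p2 (L (tt (m + 1))) := by
  obtain ⟨j, hj, e⟩ := (h.mem _ _).1 hm
  rw [(pr_inj e).1]
  exact pos_lt B hj (lt_of_le_of_lt (h.toBlk.NN_le m) (B.lt_p2 _))

theorem le_dom (B : BinP p2 top la) (h : YSys p2 w L S tt W y) {m i x : N.M}
    (hm : MemC (pr i x) (y m)) : p2 (L (tt m)) ≤ i := by
  obtain ⟨j, hj, e⟩ := (h.mem _ _).1 hm
  rw [(pr_inj e).1]
  exact le_pos B hj (h.dvd m)

theorem nonempty (h : YSys p2 w L S tt W y) (m : N.M) : ∃ r, MemC r (y m) :=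
  ⟨_, (h.mem m _).2 ⟨0, h.toBlk.NN_pos m, rfl⟩⟩

theorem le_code (B : BinP p2 top la) (h : YSys p2 w L S tt W y) (m : N.M) : m < y m := by
  obtain ⟨r, hr⟩ := h.nonempty m
  obtain ⟨j, hj, e⟩ := (h.mem _ _).1 hr
  subst e
  calc m ≤ tt m := h.toBlk.le_tt m
    _ ≤ L (tt m) := h.le_self _
    _ ≤ p2 (L (tt m)) := (B.lt_p2 _).le
    _ ≤ _ := h.le_dom B hr
    _ < y m := hr.fst_lt

theorem before (B : BinP p2 top la) (h : YSys p2 w L S tt W y) {m m' : N.M} (hm : m < m') :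
    Before N (y m) (y m') := by
  intro i x j z h1 h2
  have h3 := (val_iff (h.isC m)).1 h1
  have h4 := (val_iff (h.isC m')).1 h2
  show i < j
  calc i < p2 (L (tt (m + 1))) := h.dom_lt B h3
    _ ≤ p2 (L (tt m')) := p2_le B (h.toPre.mono (h.toBlk.tt_mono (succ_le' hm)))
    _ ≤ j := h.le_dom B h4

theorem inj (B : BinP p2 top la) (h : YSys p2 w L S tt W y) {m m' : N.M} (e : y m = y m') :
    m = m' := by
  have key : ∀ {m m'}, m < m' → y m ≠ y m' := by
    intro m m' hm e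
    obtain ⟨r, hr⟩ := h.nonempty m
    obtain ⟨j, hj, e'⟩ := (h.mem _ _).1 hr
    subst e'
    have h1 := (val_iff (h.isC m)).2 hr
    have h2 : Val N (y m') _ _ := e ▸ h1
    exact lt_irrefl' _ (h.before B hm _ _ _ _ h1 h2)
  rcases lt_trichotomy m m' with h1 | h1 | h1
  · exact absurd e (key h1)
  · exact h1
  · exact absurd e.symm (key h1)

theorem varLoc (B : BinP p2 top la) (h : YSys p2 w L S tt W y) {a : N.M}
    (hw : ∀ n, w n ∈ VarWords N a) (m : N.M) : y m ∈ VarLoc N a := by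
  rw [varLoc_iff, isFinFun_iff]
  refine ⟨⟨h.isC m, h.nonempty m, ?_, ?_⟩, ?_⟩
  · intro r hr
    obtain ⟨j, hj, e⟩ := (h.mem _ _).1 hr
    refine ⟨_, _, ?_, e⟩
    obtain ⟨n, o, -, -, h3, h4⟩ := h.toBlk.locate hj
    rw [h4, h.W_eq n o h3]
    exact lt1_of_le ((varWords_iff.1 (hw n)).2.1 o h3)
  · intro i x z hx hz
    obtain ⟨j, hj, e⟩ := (h.mem _ _).1 hx
    obtain ⟨j', hj', e'⟩ := (h.mem _ _).1 hz
    obtain ⟨e1, e2⟩ := pr_inj e
    obtain ⟨e1', e2'⟩ := pr_inj e'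
    have : j = j' := pos_inj B hj hj' (e1.symm.trans e1')
    rw [e2, e2', this]
  · obtain ⟨-, -, o, ho, e⟩ := varWords_iff.1 (hw (S m))
    have hj : o < NN L S tt m := by
      have h1 : L (S m + 1) ≤ L (tt (m + 1)) := h.toPre.mono (succ_le' (h.lt m))
      rw [h.Ls, ← h.toBlk.NN_add m, add_comm (NN L S tt m)] at h1
      exact lt_of_lt_of_le ho (le_of_add_le_add_left h1)
    refine ⟨pos p2 (NN L S tt m) o, (h.mem m _).2 ⟨o, hj, ?_⟩⟩
    rw [h.W_eq _ o ho, e]

theorem blockSeq (B : BinP p2 top la) (h : YSys p2 w L S tt W y) {a : N.M}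
    (hw : ∀ n, w n ∈ VarWords N a) : IsBlockSeq N a {p | ∃ m, p = y m} := by
  refine ⟨?_, ?_, ?_, ?_⟩
  · have e : {p | ∃ m, p = y m} = {p | ∃ m, m < p + 1 ∧ p = y m} := by
      ext p
      constructor
      · rintro ⟨m, e⟩
        exact ⟨m, lt1_of_le (by rw [e]; exact (h.le_code B m).le), e⟩
      · rintro ⟨m, _, e⟩
        exact ⟨m, e⟩
    rw [e]
    have hd : D1 (fun v : Ctx N => ∃ m, m < v 0 + 1 ∧ v 0 = y m) :=
      D1.bex (DG.add (DG.var 0) (DG.const 1)) (D1.eq (DG.var 1) (DG.app h.hy (DG.var 0)))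
    exact comp_D1 hd.1 hd.2
  · rintro ⟨b, hb⟩
    have h1 : y b < b := hb (y b) ⟨b, rfl⟩
    exact absurd h1 (not_lt.2 (h.le_code B b).le)
  · rintro p ⟨m, rfl⟩
    exact h.varLoc B hw m
  · rintro p ⟨m, rfl⟩ q ⟨m', rfl⟩ hne
    rcases lt_trichotomy m m' with h1 | h1 | h1
    · exact Or.inl (h.before B h1)
    · exact absurd (by rw [h1]) hne
    · exact Or.inr (h.before B h1)

end YSys

end Run7.h563
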