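import Mathlib
import Pool.Agent.Run7.h563.Blocks

/-!
Over `RCA₀`, Carlson's theorem for words implies Carlson's theorem for located words.
-/

namespace Run7.h563

open Pool.Agent.Helper617.RM Pool.Agent.H645R2.R

universe u

set_option linter.unusedSectionVars false
set_option linter.unusedVariables false

variable {N : L2Structure.{u}} [IsModelRCA0 N]
variable {p2 top la : N.M → N.M}

namespace Blk

variable {w L S tt : N.M → N.M}

/-- the number of the block whose interval contains `n` -/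
theorem exists_bk (h : Blk p2 w L S tt) : ∃ bk : N.M → N.M, GF bk ∧
    (∀ n, tt (bk n) ≤ n ∧ n < tt (bk n + 1)) ∧
    ∀ n m, tt m ≤ n → n < tt (m + 1) → bk n = m := by
  have hbk0 : DG (fun v : Ctx N => mu (fun m => v 0 < tt (m + 1))) := by
    refine DG.mu (P := fun v m => v 0 < tt (m + 1)) ?_ ?_
    · exact D1.lt (DG.var 1) (DG.app h.htt (DG.add (DG.var 0) (DG.const 1)))
    · intro v
      exact ⟨v 0, lt_of_lt_of_le (lt1 _) (h.le_tt _)⟩
  have heq : ∀ n m, tt m ≤ n → n < tt (m + 1) → mu (fun m => n < tt (m + 1)) = m := by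
    intro n m h1 h2
    refine mu_eq h2 fun m' hm' h3 => ?_
    exact absurd (lt_of_le_of_lt h1 h3) (not_lt.2 (h.tt_mono (succ_le' hm')))
  refine ⟨fun n => mu (fun m => n < tt (m + 1)), GF.of hbk0, fun n => ?_, heq⟩
  obtain ⟨m, -, h1, h2⟩ := lnp_S1 (P := fun m => n < tt (m + 1))
    (D1.lt (DG.const n) (DG.app h.htt (DG.add (DG.var 0) (DG.const 1)))).1 n
    (lt_of_lt_of_le (lt1 _) (h.le_tt _))
  have h3 : tt m ≤ n := by
    rcases eq_zero_or_succ m with h3 | ⟨k, h3⟩
    · rw [h3, h.t0]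
      exact zero_le' _
    · rw [h3]
      exact not_lt.1 (h2 k (by rw [h3]; exact lt1 k))
  simp only [heq n m h3 h1]
  exact ⟨h3, h1⟩

end Blk

/-- the total lengths along the chosen blocks -/
structure Tot (w L S tt y l : N.M → N.M) (F : Set N.M) : Prop where
  hl : GF l
  l0 : l 0 = 0
  yes : ∀ n m, tt m ≤ n → n < tt (m + 1) → y m ∈ F → S m ≤ n → l (n + 1) = l n + len (w n)
  no1 : ∀ n m, tt m ≤ n → n < tt (m + 1) → y m ∉ F → l (n + 1) = l n
  no2 : ∀ n m, tt m ≤ n → n < tt (m + 1) → n < S m → l (n + 1) = l n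

namespace Tot

variable {w L S tt W y l : N.M → N.M} {F : Set N.M}

theorem step_le (h : YSys p2 w L S tt W y) (t : Tot w L S tt y l F) (n : N.M) :
    l n ≤ l (n + 1) ∧ l (n + 1) ≤ l n + len (w n) := by
  obtain ⟨bk, -, hbk, -⟩ := h.toBlk.exists_bk
  obtain ⟨h1, h2⟩ := hbk n
  by_cases hF : y (bk n) ∈ F
  · by_cases hS : S (bk n) ≤ n
    · rw [t.yes n _ h1 h2 hF hS]
      exact ⟨le_add_of_nonneg_right (zero_le' _), le_rfl⟩
    · rw [t.no2 n _ h1 h2 (not_le.1 hS)]
      exact ⟨le_rfl, le_add_of_nonneg_right (zero_le' _)⟩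
  · rw [t.no1 n _ h1 h2 hF]
    exact ⟨le_rfl, le_add_of_nonneg_right (zero_le' _)⟩

theorem mono (h : YSys p2 w L S tt W y) (t : Tot w L S tt y l F) {n m : N.M} (hnm : n ≤ m) :
    l n ≤ l m := mono_of_step t.hl (fun n => (t.step_le h n).1) hnm

theorem le_L (h : YSys p2 w L S tt W y) (t : Tot w L S tt y l F) (n : N.M) : l n ≤ L n := by
  refine ind_D1 (P := fun n => l n ≤ L n)
    (D1.le (DG.app t.hl (DG.var 0)) (DG.app h.hL (DG.var 0))) ?_ ?_ n
  · rw [t.l0, h.L0]
  · intro n hn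
    refine (t.step_le h n).2.trans ?_
    rw [h.Ls]
    gcongr

theorem eq_S (h : YSys p2 w L S tt W y) (t : Tot w L S tt y l F) (m : N.M) :
    l (S m) = l (tt m) := by
  obtain ⟨d, hd⟩ := exists_sub (h.le m)
  have key : ∀ d, tt m + d ≤ S m → l (tt m + d) = l (tt m) := by
    intro d
    refine ind_D1 (P := fun d => tt m + d ≤ S m → l (tt m + d) = l (tt m)) ?_ ?_ ?_ d
    · exact D1.imp (D1.le (DG.add (DG.const _) (DG.var 0)) (DG.const _))
        (D1.eq (DG.app t.hl (DG.add (DG.const _) (DG.var 0))) (DG.const _))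
    · intro _
      rw [add_zero]
    · intro d ih hd
      rw [← add_assoc] at hd ⊢
      have h1 : tt m + d < S m := lt_of_lt_of_le (lt1 _) hd
      rw [t.no2 (tt m + d) m (le_add_of_nonneg_right (zero_le' _)) (h1.trans (h.lt m)) h1]
      exact ih h1.le
  rw [hd]
  exact key d hd.ge

theorem inside (h : YSys p2 w L S tt W y) (t : Tot w L S tt y l F) {m : N.M} (hm : y m ∈ F)
    {n : N.M} (h1 : S m ≤ n) (h2 : n ≤ tt (m + 1)) : l n + L (S m) = l (tt m) + L n := by
  obtain ⟨d, rfl⟩ := exists_sub h1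
  revert h2
  refine ind_D1 (P := fun d => S m + d ≤ tt (m + 1) →
    l (S m + d) + L (S m) = l (tt m) + L (S m + d)) ?_ ?_ ?_ d
  · refine D1.imp (D1.le (DG.add (DG.const _) (DG.var 0)) (DG.const _)) (D1.eq ?_ ?_)
    · exact DG.add (DG.app t.hl (DG.add (DG.const _) (DG.var 0))) (DG.const _)
    · exact DG.add (DG.const _) (DG.app h.hL (DG.add (DG.const _) (DG.var 0)))
  · intro _
    rw [add_zero, t.eq_S h]
  · intro d ih hd
    rw [← add_assoc] at hd ⊢
    have h3 : S m + d < tt (m + 1) := lt_of_lt_of_le (lt1 _) hd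
    have h4 : S m ≤ S m + d := le_add_of_nonneg_right (zero_le' _)
    rw [t.yes (S m + d) m ((h.le m).trans h4) h3 hm h4, h.Ls]
    have h5 := ih h3.le
    calc l (S m + d) + len (w (S m + d)) + L (S m)
        = (l (S m + d) + L (S m)) + len (w (S m + d)) := by ring
      _ = _ := by rw [h5]; ring

theorem next_yes (h : YSys p2 w L S tt W y) (t : Tot w L S tt y l F) {m : N.M}
    (hm : y m ∈ F) : l (tt (m + 1)) = l (tt m) + NN L S tt m := by
  have h1 := t.inside h hm (h.lt m).le le_rfl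
  rw [← h.toBlk.NN_add m, ← add_assoc] at h1
  exact add_right_cancel h1

theorem next_no (h : YSys p2 w L S tt W y) (t : Tot w L S tt y l F) {m : N.M}
    (hm : y m ∉ F) : l (tt (m + 1)) = l (tt m) := by
  obtain ⟨d, hd⟩ := exists_sub (h.toBlk.tt_lt m).le
  have key : ∀ d, tt m + d ≤ tt (m + 1) → l (tt m + d) = l (tt m) := by
    intro d
    refine ind_D1 (P := fun d => tt m + d ≤ tt (m + 1) → l (tt m + d) = l (tt m)) ?_ ?_ ?_ d
    · exact D1.imp (D1.le (DG.add (DG.const _) (DG.var 0)) (DG.const _))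
        (D1.eq (DG.app t.hl (DG.add (DG.const _) (DG.var 0))) (DG.const _))
    · intro _
      rw [add_zero]
    · intro d ih hd
      rw [← add_assoc] at hd ⊢
      have h1 : tt m + d < tt (m + 1) := lt_of_lt_of_le (lt1 _) hd
      rw [t.no1 (tt m + d) m (le_add_of_nonneg_right (zero_le' _)) h1 hm]
      exact ih h1.le
  rw [hd]
  exact key d hd.ge

theorem rest (B : BinP p2 top la) (h : YSys p2 w L S tt W y) (t : Tot w L S tt y l F)
    (m d : N.M) : ∃ q, l (tt (m + d)) = l (tt m) + p2 (L (tt m)) * q := by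
  refine ind_S1 (P := fun d => ∃ q, l (tt (m + d)) = l (tt m) + p2 (L (tt m)) * q) ?_ ?_ ?_ d
  · refine S1.ex (D1.eq ?_ ?_).1
    · exact DG.app t.hl (DG.app h.htt (DG.add (DG.const m) (DG.var 1)))
    · exact DG.add (DG.const _) (DG.mul (DG.const _) (DG.var 0))
  · exact ⟨0, by rw [add_zero, mul_zero, add_zero]⟩
  · rintro d ⟨q, hq⟩
    rw [← add_assoc]
    by_cases hm : y (m + d) ∈ F
    · rw [t.next_yes h hm, hq]
      obtain ⟨x, hx⟩ := h.dvd (m + d)
      have h1 : L (tt m) ≤ L (tt (m + d)) :=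
        h.toPre.mono (h.toBlk.tt_mono (le_add_of_nonneg_right (zero_le' _)))
      obtain ⟨e, he⟩ := exists_sub h1
      rw [hx, he, B.p2_add]
      exact ⟨q + p2 e * x, by ring⟩
    · rw [t.next_no h hm]
      exact ⟨q, hq⟩

/-- positions of the letters of the chosen blocks -/
theorem pos_tot (B : BinP p2 top la) (h : YSys p2 w L S tt W y) (t : Tot w L S tt y l F)
    {m b j : N.M} (hm : y m ∈ F) (hmb : m < b) (hj : j < NN L S tt m) :
    pos p2 (l (tt b)) (l (tt m) + j) = pos p2 (NN L S tt m) j := by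
  obtain ⟨d, rfl⟩ := exists_sub (succ_le' hmb)
  obtain ⟨q, hq⟩ := t.rest B h (m + 1) d
  rw [hq, pos_left B (K := L (tt (m + 1))) (lt_of_le_of_lt (t.le_L h _) (B.lt_p2 _))
    (dvd_mul_right _ _), t.next_yes h hm, pos_right B (K := L (tt m))
    (lt_of_le_of_lt (t.le_L h _) (B.lt_p2 _)) (h.dvd m) hj]
  rw [t.next_yes h hm]
  gcongr

end Tot

/-- Carlson's theorem for words implies Carlson's theorem for located words, for the same
alphabet and the same number of colours. -/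
theorem loc_of_words {a k : N.M} (ha : 0 < a) (hCT : CTFor N a k) : CTLocFor N a k := by
  classical
  intro c hc
  obtain ⟨p2, top, la, hB⟩ := bin N
  have B := binp N p2 top la hB
  -- the colouring of words
  have hc' := exists_total_col (loc_D1 a) hc
  set c' : N.M → N.M := fun p => if p ∈ Loc N a then c p else 0 with hc'def
  obtain ⟨Dm, hDm, hDm2⟩ := exists_im (n := len)
    (F := fun u j : N.M => pr (pos p2 (len u) j) (ent u j)) len_gf
    (DG.pr (DG.app2 (pos_gf B) (DG.app len_gf (DG.var 0)) (DG.var 1))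
      (DG.app2 ent_gf (DG.var 0) (DG.var 1)))
  have hk : 0 < k := by
    obtain ⟨p, hp1, hp2⟩ := exists_isC (P := fun r : N.M => r = pr 0 0)
      (D0.eq (Tm.var 0) (Tm.const _)) (b := pr 0 0 + 1) (fun r hr => by rw [hr]; exact lt1 _)
    have hp : p ∈ Loc N a := by
      refine isFinFun_iff.2 ⟨hp1, ⟨_, (hp2 _).2 rfl⟩, fun r hr => ⟨0, 0, ha, (hp2 r).1 hr⟩, ?_⟩
      intro i x z hx hz
      rw [(pr_inj ((hp2 _).1 hx)).2, (pr_inj ((hp2 _).1 hz)).2]
    exact lt_of_le_of_lt (zero_le' _) (hc.1 p hp)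
  have hg : GF (fun u => c' (Dm u)) := GF.of (DG.app hc' (DG.app hDm (DG.var 0)))
  obtain ⟨w, hw1, hw2, j0, hj0⟩ := hCT (fun u => c' (Dm u)) (isCol_of (words_D1 a) hg (by
    intro u _
    show c' (Dm u) < k
    rw [hc'def]
    by_cases h : Dm u ∈ Loc N a
    · simp only [h, if_true]
      exact hc.1 _ h
    · simp only [h, if_false]
      exact hk))
  have hwgf := funIn_iff.1 hw1
  have hlen : ∀ n, IsSq (w n) (len (w n)) := fun n => (varWords_iff.1 (hw2 n)).1
  have hpos : ∀ n, 0 < len (w n) := by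
    intro n
    obtain ⟨-, -, i, hi, -⟩ := varWords_iff.1 (hw2 n)
    exact lt_of_le_of_lt (zero_le' _) hi
  obtain ⟨L, hL, hL0, hLs⟩ := exists_rec2 (st := fun n y => y + len (w n))
    (DG.add (DG.var 1) (DG.app len_gf (DG.app hwgf (DG.var 0)))) 0
  have hpre : Pre w L := ⟨hwgf, hlen, hpos, hL, hL0, hLs⟩
  obtain ⟨S, tt, W, y, h⟩ := exists_ysys B hpre
  refine ⟨{p | ∃ m, p = y m}, h.blockSeq B hw2, j0, ?_⟩
  rintro p ⟨F, hF, hFY, ⟨q0, hq0⟩, ⟨bF, hbF⟩, α, hα, hαa, hcode⟩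
  have hαgf := funIn_iff.1 hα
  obtain ⟨hp1, hp2⟩ := isCode_iff.1 hcode
  obtain ⟨bk, hbkgf, hbk, hbkeq⟩ := h.toBlk.exists_bk
  -- the indices of the words that occur
  have hF' : D1 (fun v : Ctx N => y (bk (v 0)) ∈ F ∧ S (bk (v 0)) ≤ v 0) :=
    D1.and (D1.mem (DG.app h.hy (DG.app hbkgf (DG.var 0))) hF)
      (D1.le (DG.app h.hS (DG.app hbkgf (DG.var 0))) (DG.var 0))
  obtain ⟨l, hl, hl0, hlyes, hlno⟩ := exists_sum (F := fun n => y (bk n) ∈ F ∧ S (bk n) ≤ n) hF'
    (g := fun n => len (w n)) (GF.of (DG.app len_gf (DG.app hwgf (DG.var 0))))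
  have t : Tot w L S tt y l F := by
    refine ⟨hl, hl0, ?_, ?_, ?_⟩
    · intro n m h1 h2 h3 h4
      refine hlyes n ?_
      rw [hbkeq n m h1 h2]
      exact ⟨h3, h4⟩
    · intro n m h1 h2 h3
      refine hlno n ?_
      rw [hbkeq n m h1 h2]
      exact fun h5 => h3 h5.1
    · intro n m h1 h2 h3
      refine hlno n ?_
      rw [hbkeq n m h1 h2]
      exact fun h5 => absurd h3 (not_lt.2 h5.2)
  have hmb : ∀ m, y m ∈ F → m < bF := fun m hm => (h.le_code B m).trans (hbF _ hm)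
  have hFb : ∀ n, (y (bk n) ∈ F ∧ S (bk n) ≤ n) → n < tt bF := by
    rintro n ⟨h1, h2⟩
    exact lt_of_lt_of_le (hbk n).2 (h.toBlk.tt_mono (succ_le' (hmb _ h1)))
  have hlb : ∀ n, (y (bk n) ∈ F ∧ S (bk n) ≤ n) → ∀ o, o < len (w n) → l n + o < l (tt bF) := by
    intro n hn o ho
    have h1 := t.mono h (succ_le' (hFb n hn))
    rw [hlyes n hn] at h1
    refine lt_of_lt_of_le ?_ h1
    gcongr
  -- the word
  have hnx0 : DG (fun v : Ctx N => mu (fun n => l (tt bF) ≤ v 0 ∨ v 0 < l (n + 1))) := by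
    refine DG.mu (P := fun v n => l (tt bF) ≤ v 0 ∨ v 0 < l (n + 1)) ?_ ?_
    · exact D1.or (D1.le (DG.const _) (DG.var 1))
        (D1.lt (DG.var 1) (DG.app hl (DG.add (DG.var 0) (DG.const 1))))
    · intro v
      rcases le_or_gt (l (tt bF)) (v 0) with h1 | h1
      · exact ⟨0, Or.inl h1⟩
      · exact ⟨tt bF, Or.inr (lt_of_lt_of_le h1 (t.step_le h _).1)⟩
  have hnxgf : GF (fun x => mu (fun n => l (tt bF) ≤ x ∨ x < l (n + 1))) := GF.of hnx0
  have hnxeq : ∀ n, (y (bk n) ∈ F ∧ S (bk n) ≤ n) → ∀ o, o < len (w n) →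
      mu (fun n' => l (tt bF) ≤ l n + o ∨ l n + o < l (n' + 1)) = n := by
    intro n hn o ho
    refine mu_eq (Or.inr ?_) ?_
    · rw [hlyes n hn]
      gcongr
    · rintro m hm (h1 | h1)
      · exact absurd (hlb n hn o ho) (not_lt.2 h1)
      · have h2 := t.mono h (succ_le' hm)
        exact absurd (lt_of_lt_of_le h1 h2) (not_lt.2 (le_add_of_nonneg_right (zero_le' _)))
  have hU : GF (fun x => repl N a (α (y (bk (mu (fun n => l (tt bF) ≤ x ∨ x < l (n + 1))))))
      (ent (w (mu (fun n => l (tt bF) ≤ x ∨ x < l (n + 1))))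
        (sb x (l (mu (fun n => l (tt bF) ≤ x ∨ x < l (n + 1))))))) := by
    refine GF.of (DG.app3 repl_gf (DG.const a) ?_ ?_)
    · exact DG.app hαgf (DG.app h.hy (DG.app hbkgf (DG.app hnxgf (DG.var 0))))
    · exact DG.app2 ent_gf (DG.app hwgf (DG.app hnxgf (DG.var 0)))
        (DG.app2 sb_gf (DG.var 0) (DG.app hl (DG.app hnxgf (DG.var 0))))
  obtain ⟨u, hu1, hu2⟩ := exists_sq1 hU (l (tt bF))
  have huent : ∀ n, (y (bk n) ∈ F ∧ S (bk n) ≤ n) → ∀ o, o < len (w n) →
      ent u (l n + o) = repl N a (α (y (bk n))) (ent (w n) o) := by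
    intro n hn o ho
    rw [ent_eq hu1 (hu2 _ (hlb n hn o ho))]
    simp only [hnxeq n hn o ho]
    rw [add_comm (l n) o, sb_add]
  -- the word belongs to the span
  obtain ⟨m0, rfl⟩ := hFY hq0
  have huspan : u ∈ WordSpan N a w := by
    refine wordSpan_of_set (b := tt bF) (α := fun n => α (y (bk n))) hlen hF' ?_ hFb
      (GF.of (DG.app hαgf (DG.app h.hy (DG.app hbkgf (DG.var 0))))) hl
      (fun n hn => hαa _ hn.1) hl0 hlno hlyes hu1 huent
    refine ⟨S m0, ?_⟩
    rw [hbkeq (S m0) m0 (h.le m0) (h.lt m0)]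
    exact ⟨hq0, le_rfl⟩
  -- letters of the word and letters of the blocks
  have hstar : ∀ m n o j, y m ∈ F → S m ≤ n → n < tt (m + 1) → o < len (w n) →
      L (S m) + j = L n + o → j < NN L S tt m → l n + o < l (tt bF) ∧
      pos p2 (l (tt bF)) (l n + o) = pos p2 (NN L S tt m) j ∧
      ent u (l n + o) = repl N a (α (y m)) (W (L (S m) + j)) := by
    intro m n o j hm h1 h2 h3 h4 h5
    have hbkn := hbkeq n m ((h.le m).trans h1) h2
    have hFn : y (bk n) ∈ F ∧ S (bk n) ≤ n := by rw [hbkn]; exact ⟨hm, h1⟩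
    refine ⟨hlb n hFn o h3, ?_, ?_⟩
    · have h6 : l n + o = l (tt m) + j := by
        have h7 := t.inside h hm h1 h2.le
        refine add_right_cancel (b := L (S m)) ?_
        calc l n + o + L (S m) = (l n + L (S m)) + o := by ring
          _ = l (tt m) + (L n + o) := by rw [h7]; ring
          _ = l (tt m) + j + L (S m) := by rw [← h4]; ring
      rw [h6]
      exact t.pos_tot B h hm (hmb m hm) h5
    · rw [huent n hFn o h3, hbkn, h4, h.W_eq n o h3]
  have hlenu : len u = l (tt bF) := len_eq hu1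
  have hDu : Dm u = p := by
    refine isC_ext (hDm2 u).1 hp1 fun r => ?_
    rw [(hDm2 u).2, ← hp2, hlenu]
    constructor
    · rintro ⟨x, hx, rfl⟩
      -- find the word containing the letter number `x`
      obtain ⟨n, -, h1, h2⟩ := lnp_S1 (P := fun n => x < l (n + 1))
        (D1.lt (DG.const x) (DG.app hl (DG.add (DG.var 0) (DG.const 1)))).1 (tt bF)
        (lt_of_lt_of_le hx (t.step_le h _).1)
      have h3 : l n ≤ x := by
        rcases eq_zero_or_succ n with h3 | ⟨k, h3⟩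
        · rw [h3, hl0]
          exact zero_le' _
        · rw [h3]
          exact not_lt.1 (h2 k (by rw [h3]; exact lt1 k))
      have hFn : y (bk n) ∈ F ∧ S (bk n) ≤ n := by
        by_contra hcon
        rw [hlno n hcon] at h1
        exact absurd h1 (not_lt.2 h3)
      obtain ⟨o, rfl⟩ := exists_sub h3
      rw [hlyes n hFn] at h1
      have ho : o < len (w n) := lt_of_add_lt_add_left h1
      have h4 : L (S (bk n)) ≤ L n + o :=
        (h.toPre.mono hFn.2).trans (le_add_of_nonneg_right (zero_le' _))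
      obtain ⟨j, hj⟩ := exists_sub h4
      have h5 : j < NN L S tt (bk n) := by
        have h6 : L (n + 1) ≤ L (tt (bk n + 1)) := h.toPre.mono (succ_le' (hbk n).2)
        have h7 : L (S (bk n)) + j < L (S (bk n)) + NN L S tt (bk n) := by
          rw [← hj, add_comm (L (S (bk n))), h.toBlk.NN_add]
          refine lt_of_lt_of_le ?_ h6
          rw [h.Ls]
          gcongr
        exact lt_of_add_lt_add_left h7
      obtain ⟨-, e1, e2⟩ := hstar (bk n) n o j hFn.1 hFn.2 (hbk n).2 ho hj.symm h5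
      refine ⟨y (bk n), hFn.1, pos p2 (NN L S tt (bk n)) j, W (L (S (bk n)) + j), ?_, ?_⟩
      · exact (val_iff (h.isC _)).2 ((h.mem _ _).2 ⟨j, h5, rfl⟩)
      · rw [e1, e2]
        rfl
    · rintro ⟨q, hq, i, x, hv, rfl⟩
      obtain ⟨m, rfl⟩ := hFY hq
      obtain ⟨j, hj, e⟩ := (h.mem _ _).1 ((val_iff (h.isC _)).1 hv)
      obtain ⟨rfl, rfl⟩ := pr_inj e
      obtain ⟨n, o, h1, h2, h3, h4⟩ := h.toBlk.locate hj
      obtain ⟨e0, e1, e2⟩ := hstar m n o j hq h1 h2 h3 h4 hj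
      refine ⟨l n + o, e0, ?_⟩
      rw [e1, e2]
      rfl
  have hfin := hj0 u huspan
  have hploc : p ∈ Loc N a := by
    refine isFinFun_iff.2 ⟨hp1, ?_, ?_, ?_⟩
    · obtain ⟨r, hr⟩ := h.nonempty m0
      obtain ⟨j, hj, e⟩ := (h.mem _ _).1 hr
      refine ⟨N.pair (pos p2 (NN L S tt m0) j) (repl N a (α (y m0)) (W (L (S m0) + j))),
        (hp2 _).1 ⟨y m0, hq0, _, _, (val_iff (h.isC _)).2 ((h.mem _ _).2 ⟨j, hj, rfl⟩), rfl⟩⟩
    · intro r hr
      obtain ⟨q, hq, i, x, hv, rfl⟩ := (hp2 r).2 hr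
      obtain ⟨m, rfl⟩ := hFY hq
      refine ⟨i, _, repl_lt (hαa _ hq) ?_, rfl⟩
      obtain ⟨h1, -⟩ := varLoc_iff.1 (h.varLoc B hw2 m)
      obtain ⟨i', x', hx', e⟩ := (isFinFun_iff.1 h1).2.2.1 _ ((val_iff (h.isC _)).1 hv)
      rw [(pr_inj e).2]
      exact le_of_lt1 hx'
    · intro i x z hx hz
      obtain ⟨q, hq, i1, x1, hv, e⟩ := (hp2 _).2 hx
      obtain ⟨q', hq', i2, x2, hv', e'⟩ := (hp2 _).2 hz
      obtain ⟨m, rfl⟩ := hFY hq
      obtain ⟨m', rfl⟩ := hFY hq'
      have e1 : pr i x = pr i1 (repl N a (α (y m)) x1) := e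
      have e2 : pr i z = pr i2 (repl N a (α (y m')) x2) := e'
      obtain ⟨rfl, rfl⟩ := pr_inj e1
      obtain ⟨rfl, rfl⟩ := pr_inj e2
      have hmm : m = m' := by
        rcases lt_trichotomy m m' with h1 | h1 | h1
        · exact absurd (h.before B h1 _ _ _ _ hv hv') (lt_irrefl' _)
        · exact h1
        · exact absurd (h.before B h1 _ _ _ _ hv' hv) (lt_irrefl' _)
      subst hmm
      obtain ⟨h1, -⟩ := varLoc_iff.1 (h.varLoc B hw2 m)
      rw [(isFinFun_iff.1 h1).2.2.2 i x1 x2 ((val_iff (h.isC _)).1 hv)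
        ((val_iff (h.isC _)).1 hv')]
  have hfin' : c' (Dm u) = j0 := hfin
  rw [hDu, hc'def] at hfin'
  simp only [hploc, if_true] at hfin'
  exact hfin'

end Run7.h563
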