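import Mathlib
import Pool.Agent.Run7.h563.Blocks

/-!
The word of the letters of a located word, in the order of their positions.
-/

namespace Run7.h563

open Pool.Agent.Helper617.RM Pool.Agent.H645R2.R

universe u

set_option linter.unusedSectionVars false
set_option linter.unusedVariables false

variable {N : L2Structure.{u}} [IsModelRCA0 N]

/-- increasing enumeration of a bounded set -/
theorem exists_enum {F : N.M → Prop} (hF : D1 (fun v => F (v 0))) {b : N.M}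
    (hb : ∀ n, F n → n < b) : ∃ (k : N.M) (ν : N.M → N.M), GF ν ∧ (∀ i, i < k → F (ν i)) ∧
      (∀ i j, i < j → j < k → ν i < ν j) ∧ ∀ n, F n → ∃ i, i < k ∧ ν i = n := by
  obtain ⟨κ, hκ⟩ := exists_count hF
  have hν0 : DG (fun v : Ctx N => mu (fun n => b < n + 1 ∨ (F n ∧ κ n = v 0))) := by
    refine DG.mu (P := fun v n => b < n + 1 ∨ (F n ∧ κ n = v 0)) ?_ ?_
    · refine D1.or (D1.lt (DG.const b) (DG.add (DG.var 0) (DG.const 1))) (D1.and ?_ ?_)
      · exact D1.app1 (R := fun n => F n) hF (DG.var 0)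
      · exact D1.eq (DG.app hκ.gf (DG.var 0)) (DG.var 1)
    · intro v
      exact ⟨b, Or.inl (lt1 b)⟩
  set ν : N.M → N.M := fun i => mu (fun n => b < n + 1 ∨ (F n ∧ κ n = i)) with hν
  have hνeq : ∀ n, F n → ν (κ n) = n := by
    intro n hn
    refine mu_eq (Or.inr ⟨hn, rfl⟩) ?_
    rintro m hm (h1 | ⟨h1, h2⟩)
    · exact absurd (lt_of_lt_of_le h1 (succ_le' hm)) (not_lt.2 (hb n hn).le)
    · exact absurd (hκ.inj h1 hn h2) hm.ne
  have hνF : ∀ i, i < κ b → F (ν i) ∧ κ (ν i) = i := by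
    intro i hi
    obtain ⟨n, h1, h2, h3⟩ := hκ.exists_of_lt hF b i hi
    rw [← h3, hνeq n h2]
    exact ⟨h2, rfl⟩
  refine ⟨κ b, ν, GF.of hν0, fun i hi => (hνF i hi).1, fun i j hij hj => ?_, fun n hn =>
    ⟨κ n, hκ.lt_of hn (hb n hn), hνeq n hn⟩⟩
  by_contra hcon
  have h1 := hκ.mono (not_lt.1 hcon)
  rw [(hνF j hj).2, (hνF i (hij.trans hj)).2] at h1
  exact absurd hij (not_lt.2 h1)

theorem sq_ext {u u' n : N.M} (h : IsSq u n) (h' : IsSq u' n)
    (he : ∀ i, i < n → ent u i = ent u' i) : u = u' := by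
  refine isC_ext h.1 h'.1 fun r => ?_
  constructor
  · intro hr
    obtain ⟨i, z, hi, rfl⟩ := h.mem hr
    rw [mem_iff_ent h'] 
    rw [mem_iff_ent h] at hr
    exact ⟨hr.1, by rw [hr.2, he i hr.1]⟩
  · intro hr
    obtain ⟨i, z, hi, rfl⟩ := h'.mem hr
    rw [mem_iff_ent h] 
    rw [mem_iff_ent h'] at hr
    exact ⟨hr.1, by rw [hr.2, he i hr.1]⟩

/-- `u` is the sequence of the values of the finite function `p`, and `e` is the sequence of the
elements of its domain, in increasing order -/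
structure En (p u e : N.M) : Prop where
  hu : IsSq u (len u)
  he : IsSq e (len u)
  inc : ∀ j, j < len u → ∀ i, i < j → ent e i < ent e j
  mem : ∀ i, i < len u → MemC (pr (ent e i) (ent u i)) p
  surj : ∀ r, r < p → MemC r p → ∃ i, i < len u ∧ r = pr (ent e i) (ent u i)

theorem en_D1 : D1 (fun v : Ctx N => En (v 0) (v 1) (v 2)) := by
  refine D1.congr (R := fun v => IsSq (v 1) (len (v 1)) ∧ (IsSq (v 2) (len (v 1)) ∧
    ((∀ j, j < len (v 1) → ∀ i, i < j → ent (v 2) i < ent (v 2) j) ∧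
    ((∀ i, i < len (v 1) → MemC (pr (ent (v 2) i) (ent (v 1) i)) (v 0)) ∧
    ∀ r, r < v 0 → MemC r (v 0) → ∃ i, i < len (v 1) ∧ r = pr (ent (v 2) i) (ent (v 1) i)))))
    ?_ fun v => ⟨fun ⟨a, b, c, d, e⟩ => ⟨a, b, c, d, e⟩, fun h => ⟨h.1, h.2, h.3, h.4, h.5⟩⟩
  refine D1.and (D1.IsSq (DG.var 1) (DG.app len_gf (DG.var 1)))
    (D1.and (D1.IsSq (DG.var 2) (DG.app len_gf (DG.var 1))) (D1.and ?_ (D1.and ?_ ?_)))
  · refine D1.ball (DG.app len_gf (DG.var 1)) (D1.ball (DG.var 0) (D1.lt ?_ ?_))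
    · exact DG.app2 ent_gf (DG.var 4) (DG.var 0)
    · exact DG.app2 ent_gf (DG.var 4) (DG.var 1)
  · refine D1.ball (DG.app len_gf (DG.var 1)) (D1.MemC (DG.pr ?_ ?_) (DG.var 1))
    · exact DG.app2 ent_gf (DG.var 3) (DG.var 0)
    · exact DG.app2 ent_gf (DG.var 2) (DG.var 0)
  · refine D1.ball (DG.var 0) (D1.imp (D1.MemC (DG.var 0) (DG.var 1))
      (D1.bex (DG.app len_gf (DG.var 2)) (D1.eq (DG.var 1) (DG.pr ?_ ?_))))
    · exact DG.app2 ent_gf (DG.var 4) (DG.var 0)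
    · exact DG.app2 ent_gf (DG.var 3) (DG.var 0)

theorem exists_en {V : N.M → Prop} {p : N.M} (hp : IsFinFun N V p) : ∃ u e, En p u e := by
  obtain ⟨h1, h2, h3, h4⟩ := isFinFun_iff.1 hp
  have hF : D1 (fun v : Ctx N => ∃ x, x < p ∧ MemC (pr (v 0) x) p) :=
    D1.bex (DG.const p) (D1.MemC (DG.pr (DG.var 1) (DG.var 0)) (DG.const p))
  obtain ⟨k, ν, hν, hν1, hν2, hν3⟩ := exists_enum (F := fun i => ∃ x, x < p ∧ MemC (pr i x) p) hF
    (b := p) (by rintro n ⟨x, _, hx⟩; exact hx.fst_lt)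
  obtain ⟨e, he1, he2⟩ := exists_sq1 hν k
  have hent : ∀ i x, MemC (pr i x) p → ent p i = x := by
    intro i x hx
    refine mu_eq (Or.inl hx) ?_
    rintro y hy (h5 | h5)
    · exact absurd (h4 i y x h5 hx) hy.ne
    · exact absurd (h5.trans hy) (not_lt.2 hx.snd_lt.le)
  obtain ⟨u, hu1, hu2⟩ := exists_sq1 (h := fun i => ent p (ν i))
    (GF.of (DG.app2 ent_gf (DG.const p) (DG.app hν (DG.var 0)))) k
  have hlen : len u = k := len_eq hu1
  have e1 : ∀ i, i < k → ent e i = ν i := fun i hi => ent_eq he1 (he2 i hi)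
  have e2 : ∀ i, i < k → ent u i = ent p (ν i) := fun i hi => ent_eq hu1 (hu2 i hi)
  refine ⟨u, e, by rw [hlen]; exact hu1, by rw [hlen]; exact he1, ?_, ?_, ?_⟩
  · rw [hlen]
    intro j hj i hij
    rw [e1 i (hij.trans hj), e1 j hj]
    exact hν2 i j hij hj
  · rw [hlen]
    intro i hi
    rw [e1 i hi, e2 i hi]
    obtain ⟨x, _, hx⟩ := hν1 i hi
    rw [hent _ _ hx]
    exact hx
  · rw [hlen]
    intro r _ hr
    obtain ⟨i, x, _, rfl⟩ := h3 r hr
    obtain ⟨j, hj, hji⟩ := hν3 i ⟨x, hr.snd_lt, hr⟩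
    refine ⟨j, hj, ?_⟩
    rw [e1 j hj, e2 j hj, hji, hent i x hr]

theorem en_unique {V : N.M → Prop} {p u e u' e' : N.M} (hp : IsFinFun N V p) (h : En p u e)
    (h' : En p u' e') : u = u' ∧ e = e' := by
  obtain ⟨h1, h2, h3, h4⟩ := isFinFun_iff.1 hp
  -- every entry of `e` is an entry of `e'`
  have hsub : ∀ {u e u' e' : N.M}, En p u e → En p u' e' → ∀ i, i < len u →
      ∃ j, j < len u' ∧ ent e i = ent e' j ∧ ent u i = ent u' j := by
    intro u e u' e' h h' i hi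
    obtain ⟨j, hj, hr⟩ := h'.surj _ (h.mem i hi).lt (h.mem i hi)
    exact ⟨j, hj, (pr_inj hr).1, (pr_inj hr).2⟩
  have key : ∀ b : N.M, ∀ i, i < b → i < len u → i < len u' → ent e i = ent e' i := by
    intro b
    refine ind_D1 (P := fun b => ∀ i, i < b → i < len u → i < len u' → ent e i = ent e' i)
      ?_ ?_ ?_ b
    · refine D1.ball (DG.var 0) (D1.imp (D1.lt (DG.var 0) (DG.const _))
        (D1.imp (D1.lt (DG.var 0) (DG.const _)) (D1.eq ?_ ?_)))
      · exact DG.app2 ent_gf (DG.const _) (DG.var 0)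
      · exact DG.app2 ent_gf (DG.const _) (DG.var 0)
    · intro i hi
      exact absurd hi (not_lt.2 (zero_le' _))
    · intro b ih i hi hiu hiu'
      have hle : ∀ {u e u' e' : N.M}, En p u e → En p u' e' →
          (∀ j, j < b → j < len u → j < len u' → ent e j = ent e' j) → i < len u → i < len u' →
          ent e' i ≤ ent e i := by
        intro u e u' e' h h' ih hiu hiu'
        obtain ⟨j, hj, hej, -⟩ := hsub h h' i hiu
        rcases lt_or_ge j i with h5 | h5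
        · have h6 := ih j (lt_of_lt_of_le h5 (le_of_lt1 hi)) (h5.trans hiu) hj
          have h7 := h.inc i hiu j h5
          rw [h6, ← hej] at h7
          exact absurd h7 (lt_irrefl _)
        · rw [hej]
          rcases lt_or_eq_of_le h5 with h6 | h6
          · exact (h'.inc j hj i h6).le
          · rw [h6]
      refine le_antisymm ?_ ?_
      · exact hle h' h (fun j hj h5 h6 => (ih j hj h6 h5).symm) hiu' hiu
      · exact hle h h' ih hiu hiu'
  have hlen : ∀ {u e u' e' : N.M}, En p u e → En p u' e' →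
      (∀ i, i < len u → i < len u' → ent e i = ent e' i) → ¬ len u < len u' := by
    intro u e u' e' h h' heq hlt
    obtain ⟨j, hj, hej, -⟩ := hsub h' h (len u) hlt
    have h5 := h'.inc (len u) hlt j hj
    rw [hej, heq j hj (hj.trans hlt)] at h5
    exact absurd h5 (lt_irrefl _)
  have hkey : ∀ i, i < len u → i < len u' → ent e i = ent e' i :=
    fun i => key (i + 1) i (lt1 i)
  have hl : len u = len u' := by
    rcases lt_trichotomy (len u) (len u') with h5 | h5 | h5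
    · exact absurd h5 (hlen h h' hkey)
    · exact h5
    · exact absurd h5 (hlen h' h fun i hi hi' => (hkey i hi' hi).symm)
  constructor
  · refine sq_ext h.hu (by rw [hl]; exact h'.hu) fun i hi => ?_
    have h5 := h.mem i hi
    have h6 := h'.mem i (hl ▸ hi)
    rw [← hkey i hi (hl ▸ hi)] at h6
    exact h4 _ _ _ h5 h6
  · exact sq_ext h.he (by rw [hl]; exact h'.he) fun i hi => hkey i hi (hl ▸ hi)

/-- the word of a located word, as a function of the model -/
theorem exists_wd (a : N.M) : ∃ wd ed : N.M → N.M, GF wd ∧ GF ed ∧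
    ∀ p, IsFinFun N (fun x => x < a + 1) p → En p (wd p) (ed p) := by
  classical
  have hex : ∀ p : N.M, ∃ u e, (IsFinFun N (fun x => x < a + 1) p → En p u e) ∧
      (¬ IsFinFun N (fun x => x < a + 1) p → u = 0 ∧ e = 0) := by
    intro p
    by_cases h : IsFinFun N (fun x => x < a + 1) p
    · obtain ⟨u, e, h1⟩ := exists_en h
      exact ⟨u, e, fun _ => h1, fun h2 => absurd h h2⟩
    · exact ⟨0, 0, fun h2 => absurd h2 h, fun _ => ⟨rfl, rfl⟩⟩
  choose wd ed h1 h2 using hex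
  have hfd := finFun_D1 (N := N) (a + 1)
  have hen : ∀ {g g' g'' : Ctx N → N.M}, DG g → DG g' → DG g'' →
      D1 (fun v => En (g v) (g' v) (g'' v)) := fun k1 k2 k3 =>
    D1.app3 (R := fun x y z => En x y z) en_D1 k1 k2 k3
  refine ⟨wd, ed, GF.graph ⟨?_, ?_⟩, GF.graph ⟨?_, ?_⟩, h1⟩
  · refine S1.congr (R := fun v => ∃ e, (IsFinFun N (fun x => x < a + 1) (v 0) ∧
      En (v 0) (v 1) e) ∨ (¬ IsFinFun N (fun x => x < a + 1) (v 0) ∧ v 1 = 0)) ?_ fun v => ?_
    · exact S1.ex (D1.or (D1.and (D1.app1 (R := fun p => IsFinFun N (fun x => x < a + 1) p) hfd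
        (DG.var 1)) (hen (DG.var 1) (DG.var 2) (DG.var 0))) (D1.and (D1.not (D1.app1
          (R := fun p => IsFinFun N (fun x => x < a + 1) p) hfd (DG.var 1)))
            (D1.eq (DG.var 2) (DG.const 0)))).1
    · constructor
      · rintro ⟨e, ⟨h3, h4⟩ | ⟨h3, h4⟩⟩
        · exact (en_unique h3 h4 (h1 _ h3)).1
        · rw [h4, (h2 _ h3).1]
      · intro h3
        by_cases h4 : IsFinFun N (fun x => x < a + 1) (v 0)
        · exact ⟨ed (v 0), Or.inl ⟨h4, by rw [h3]; exact h1 _ h4⟩⟩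
        · exact ⟨0, Or.inr ⟨h4, by rw [h3, (h2 _ h4).1]⟩⟩
  · refine S1.congr (R := fun v => ∃ u, ∃ e, ((IsFinFun N (fun x => x < a + 1) (v 0) ∧
      En (v 0) u e) ∨ (¬ IsFinFun N (fun x => x < a + 1) (v 0) ∧ u = 0)) ∧ ¬ v 1 = u) ?_
      fun v => ?_
    · exact S1.ex (S1.ex (D1.and (D1.or (D1.and (D1.app1
        (R := fun p => IsFinFun N (fun x => x < a + 1) p) hfd
        (DG.var 2)) (hen (DG.var 2) (DG.var 1) (DG.var 0))) (D1.and (D1.not (D1.app1
          (R := fun p => IsFinFun N (fun x => x < a + 1) p) hfd (DG.var 2)))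
            (D1.eq (DG.var 1) (DG.const 0)))) (D1.not (D1.eq (DG.var 3) (DG.var 1)))).1)
    · constructor
      · rintro ⟨u, e, ⟨h3, h4⟩ | ⟨h3, h4⟩, h5⟩ h6
        · exact h5 (h6.trans (en_unique h3 h4 (h1 _ h3)).1.symm)
        · exact h5 (h6.trans (by rw [h4, (h2 _ h3).1]))
      · intro h3
        by_cases h4 : IsFinFun N (fun x => x < a + 1) (v 0)
        · exact ⟨wd (v 0), ed (v 0), Or.inl ⟨h4, h1 _ h4⟩, h3⟩
        · exact ⟨wd (v 0), ed (v 0), Or.inr ⟨h4, (h2 _ h4).1⟩, h3⟩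
  · refine S1.congr (R := fun v => ∃ u, (IsFinFun N (fun x => x < a + 1) (v 0) ∧
      En (v 0) u (v 1)) ∨ (¬ IsFinFun N (fun x => x < a + 1) (v 0) ∧ v 1 = 0)) ?_ fun v => ?_
    · exact S1.ex (D1.or (D1.and (D1.app1 (R := fun p => IsFinFun N (fun x => x < a + 1) p) hfd
        (DG.var 1)) (hen (DG.var 1) (DG.var 0) (DG.var 2))) (D1.and (D1.not (D1.app1
          (R := fun p => IsFinFun N (fun x => x < a + 1) p) hfd (DG.var 1)))
            (D1.eq (DG.var 2) (DG.const 0)))).1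
    · constructor
      · rintro ⟨e, ⟨h3, h4⟩ | ⟨h3, h4⟩⟩
        · exact (en_unique h3 h4 (h1 _ h3)).2
        · rw [h4, (h2 _ h3).2]
      · intro h3
        by_cases h4 : IsFinFun N (fun x => x < a + 1) (v 0)
        · exact ⟨wd (v 0), Or.inl ⟨h4, by rw [h3]; exact h1 _ h4⟩⟩
        · exact ⟨0, Or.inr ⟨h4, by rw [h3, (h2 _ h4).2]⟩⟩
  · refine S1.congr (R := fun v => ∃ u, ∃ e, ((IsFinFun N (fun x => x < a + 1) (v 0) ∧
      En (v 0) u e) ∨ (¬ IsFinFun N (fun x => x < a + 1) (v 0) ∧ e = 0)) ∧ ¬ v 1 = e) ?_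
      fun v => ?_
    · exact S1.ex (S1.ex (D1.and (D1.or (D1.and (D1.app1
        (R := fun p => IsFinFun N (fun x => x < a + 1) p) hfd
        (DG.var 2)) (hen (DG.var 2) (DG.var 1) (DG.var 0))) (D1.and (D1.not (D1.app1
          (R := fun p => IsFinFun N (fun x => x < a + 1) p) hfd (DG.var 2)))
            (D1.eq (DG.var 0) (DG.const 0)))) (D1.not (D1.eq (DG.var 3) (DG.var 0)))).1)
    · constructor
      · rintro ⟨u, e, ⟨h3, h4⟩ | ⟨h3, h4⟩, h5⟩ h6
        · exact h5 (h6.trans (en_unique h3 h4 (h1 _ h3)).2.symm)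
        · exact h5 (h6.trans (by rw [h4, (h2 _ h3).2]))
      · intro h3
        by_cases h4 : IsFinFun N (fun x => x < a + 1) (v 0)
        · exact ⟨wd (v 0), ed (v 0), Or.inl ⟨h4, h1 _ h4⟩, h3⟩
        · exact ⟨wd (v 0), ed (v 0), Or.inr ⟨h4, (h2 _ h4).2⟩, h3⟩

end Run7.h563
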