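import Mathlib
import Pool.Agent.Run7.h563.Enum

/-!
Over `RCA₀`, Carlson's theorem for located words implies Carlson's theorem for words.
-/

namespace Run7.h563

open Pool.Agent.Helper617.RM Pool.Agent.H645R2.R

universe u

set_option linter.unusedSectionVars false
set_option linter.unusedVariables false

variable {N : L2Structure.{u}} [IsModelRCA0 N]

/-! ### enumeration of block sequences -/

theorem before_iff {p q : N.M} (hp : IsC p) (hq : IsC q) : Before N p q ↔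
    ∀ i, i < p → ∀ x, x < p → ∀ j, j < q → ∀ z, z < q → MemC (pr i x) p → MemC (pr j z) q →
      i < j := by
  constructor
  · intro h i _ x _ j _ z _ h1 h2
    exact h i x j z ((val_iff hp).2 h1) ((val_iff hq).2 h2)
  · intro h i x j z h1 h2
    have h3 := (val_iff hp).1 h1
    have h4 := (val_iff hq).1 h2
    exact h i h3.fst_lt x h3.snd_lt j h4.fst_lt z h4.snd_lt h3 h4

theorem beforeM_D1 {g g' : Ctx N → N.M} (hg : DG g) (hg' : DG g') : D1 (fun v : Ctx N =>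
    ∀ i, i < g v → ∀ x, x < g v → ∀ j, j < g' v → ∀ z, z < g' v → MemC (pr i x) (g v) →
      MemC (pr j z) (g' v) → i < j) := by
  refine D1.ball hg (D1.ball hg.tail (D1.ball hg'.tail.tail (D1.ball hg'.tail.tail.tail
    (D1.imp ?_ (D1.imp ?_ (D1.lt (DG.var 3) (DG.var 1)))))))
  · exact D1.MemC (DG.pr (DG.var 3) (DG.var 2)) hg.tail.tail.tail.tail
  · exact D1.MemC (DG.pr (DG.var 1) (DG.var 0)) hg'.tail.tail.tail.tail

theorem varLoc_facts {a p : N.M} (hp : p ∈ VarLoc N a) : IsC p ∧ (∃ r, MemC r p) ∧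
    (∀ r, MemC r p → ∃ i x, x < a + 1 ∧ r = pr i x) ∧
    (∀ i x y, MemC (pr i x) p → MemC (pr i y) p → x = y) := isFinFun_iff.1 (varLoc_iff.1 hp).1

theorem pr_mono {x y x' y' : N.M} (h : x ≤ x') (h' : y ≤ y') : pr x y ≤ pr x' y' := by
  unfold pr
  gcongr

theorem exists_next {a : N.M} {Y : Set N.M} (hY : IsBlockSeq N a Y) {q : N.M} (hq : q ∈ Y) :
    ∃ q' ∈ Y, Before N q q' := by
  by_contra hcon
  push Not at hcon
  obtain ⟨U, hU⟩ := isC_bound (pr q (a + 1) + 1)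
  refine hY.infinite ⟨max U q + 1, fun p hp => ?_⟩
  show p < max U q + 1
  by_cases hpq : p = q
  · rw [hpq]
    exact lt1_of_le (le_max_right _ _)
  · rcases hY.comp p hp q hq hpq with h | h
    · refine lt1_of_le ((hU p (varLoc_facts (hY.sub hp)).1 fun r hr => ?_).trans
        (le_max_left _ _))
      obtain ⟨i, x, hx, rfl⟩ := (varLoc_facts (hY.sub hp)).2.2.1 r hr
      obtain ⟨r', hr'⟩ := (varLoc_facts (hY.sub hq)).2.1
      obtain ⟨j, z, _, rfl⟩ := (varLoc_facts (hY.sub hq)).2.2.1 r' hr'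
      have h1 : i < j := h i x j z ((val_iff (varLoc_facts (hY.sub hp)).1).2 hr)
        ((val_iff (varLoc_facts (hY.sub hq)).1).2 hr')
      exact lt1_of_le (pr_mono (h1.trans hr'.fst_lt).le hx.le)
    · exact absurd h (hcon p hp)

theorem exists_seq {a : N.M} {Y : Set N.M} (hY : IsBlockSeq N a Y) :
    ∃ y : N.M → N.M, GF y ∧ (∀ n, y n ∈ Y) ∧ ∀ n m, n < m → Before N (y n) (y m) := by
  have hYC : ∀ q ∈ Y, IsC q := fun q hq => (varLoc_facts (hY.sub hq)).1
  have hd : D1 (fun w : Ctx N => ¬ (tail w) 0 ∈ Y ∨ (w 0 ∈ Y ∧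
      ∀ i, i < (tail w) 0 → ∀ x, x < (tail w) 0 → ∀ j, j < w 0 → ∀ z, z < w 0 →
        MemC (pr i x) ((tail w) 0) → MemC (pr j z) (w 0) → i < j)) :=
    D1.or (D1.mem (DG.var 1) hY.mem).not (D1.and (D1.mem (DG.var 0) hY.mem)
      (beforeM_D1 (DG.var 1) (DG.var 0)))
  have hnx0 := DG.mu (P := fun (v : Ctx N) q' => ¬ v 0 ∈ Y ∨ (q' ∈ Y ∧
      ∀ i, i < v 0 → ∀ x, x < v 0 → ∀ j, j < q' → ∀ z, z < q' →
        MemC (pr i x) (v 0) → MemC (pr j z) q' → i < j)) hd (by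
    intro v
    by_cases h : v 0 ∈ Y
    · obtain ⟨q', h1, h2⟩ := exists_next hY h
      exact ⟨q', Or.inr ⟨h1, (before_iff (hYC _ h) (hYC _ h1)).1 h2⟩⟩
    · exact ⟨0, Or.inl h⟩)
  set nx : N.M → N.M := fun q => mu (fun q' => ¬ q ∈ Y ∨ (q' ∈ Y ∧
      ∀ i, i < q → ∀ x, x < q → ∀ j, j < q' → ∀ z, z < q' →
        MemC (pr i x) q → MemC (pr j z) q' → i < j)) with hnx
  have hnxgf : GF nx := GF.of hnx0
  have hnxs : ∀ q ∈ Y, nx q ∈ Y ∧ Before N q (nx q) := by
    intro q hq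
    have := (mu_spec_ctx (P := fun (v : Ctx N) q' => ¬ v 0 ∈ Y ∨ (q' ∈ Y ∧
      ∀ i, i < v 0 → ∀ x, x < v 0 → ∀ j, j < q' → ∀ z, z < q' →
        MemC (pr i x) (v 0) → MemC (pr j z) q' → i < j)) hd (fun _ => q) (by
        obtain ⟨q', h1, h2⟩ := exists_next hY hq
        exact ⟨q', Or.inr ⟨h1, (before_iff (hYC _ hq) (hYC _ h1)).1 h2⟩⟩)).1
    rcases this with h | ⟨h1, h2⟩
    · exact absurd hq h
    · exact ⟨h1, (before_iff (hYC _ hq) (hYC _ h1)).2 h2⟩
  have hne : ∃ q0, q0 ∈ Y := by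
    by_contra hcon
    push Not at hcon
    exact hY.infinite ⟨0, fun q hq => absurd hq (hcon q)⟩
  obtain ⟨q0, hq0⟩ := hne
  obtain ⟨y, hy, hy0, hys⟩ := exists_rec2 (st := fun _ q => nx q) (DG.app hnxgf (DG.var 1)) q0
  have hyY : ∀ n, y n ∈ Y := by
    intro n
    refine ind_D1 (P := fun n => y n ∈ Y) (D1.mem (DG.app hy (DG.var 0)) hY.mem) ?_ ?_ n
    · rw [hy0]
      exact hq0
    · intro n hn
      rw [hys]
      exact (hnxs _ hn).1
  refine ⟨y, hy, hyY, fun n m hnm => ?_⟩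
  obtain ⟨d, rfl⟩ := exists_sub (succ_le' hnm)
  have key : ∀ d, ∀ i, i < y n → ∀ x, x < y n → ∀ j, j < y (n + 1 + d) → ∀ z,
      z < y (n + 1 + d) → MemC (pr i x) (y n) → MemC (pr j z) (y (n + 1 + d)) → i < j := by
    intro d
    refine ind_D1 (P := fun d => ∀ i, i < y n → ∀ x, x < y n → ∀ j, j < y (n + 1 + d) → ∀ z,
      z < y (n + 1 + d) → MemC (pr i x) (y n) → MemC (pr j z) (y (n + 1 + d)) → i < j)
      ?_ ?_ ?_ d
    · exact beforeM_D1 (DG.const _) (DG.app hy (DG.add (DG.const _) (DG.var 0)))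
    · refine (before_iff (hYC _ (hyY _)) (hYC _ (hyY _))).1 ?_
      rw [add_zero, hys]
      exact (hnxs _ (hyY n)).2
    · intro d hd i hi x hx j hj z hz h1 h2
      obtain ⟨r, hr⟩ := (varLoc_facts (hY.sub (hyY (n + 1 + d)))).2.1
      obtain ⟨j', z', _, rfl⟩ := (varLoc_facts (hY.sub (hyY (n + 1 + d)))).2.2.1 r hr
      have h3 := hd i hi x hx j' hr.fst_lt z' hr.snd_lt h1 hr
      rw [← add_assoc, hys] at h2
      have h4 : j' < j := (hnxs _ (hyY (n + 1 + d))).2 j' z' j z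
        ((val_iff (hYC _ (hyY _))).2 hr) ((val_iff (hYC _ (hnxs _ (hyY _)).1)).2 h2)
      exact h3.trans h4
  exact (before_iff (hYC _ (hyY _)) (hYC _ (hyY _))).2 (key d)

/-- Carlson's theorem for located words implies Carlson's theorem for words, for the same
alphabet and the same number of colours. -/
theorem words_of_loc {a k : N.M} (ha : 0 < a) (hCT : CTLocFor N a k) : CTFor N a k := by
  classical
  intro g hg
  obtain ⟨wd, ed, hwd, hed, hen⟩ := exists_wd (N := N) a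
  have hg' := exists_total_col (words_D1 a) hg
  set g' : N.M → N.M := fun p => if p ∈ Words N a then g p else 0 with hg'def
  have hlocFF : ∀ p ∈ Loc N a, IsFinFun N (fun x => x < a + 1) p := by
    intro p hp
    obtain ⟨h1, h2, h3, h4⟩ := isFinFun_iff.1 hp
    refine isFinFun_iff.2 ⟨h1, h2, fun r hr => ?_, h4⟩
    obtain ⟨i, x, hx, e⟩ := h3 r hr
    have hx' : x < a := hx
    exact ⟨i, x, hx'.trans (lt1 a), e⟩
  have hlocW : ∀ p ∈ Loc N a, wd p ∈ Words N a := by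
    intro p hp
    have h1 := hen p (hlocFF p hp)
    refine words_iff.2 ⟨h1.hu, fun i hi => ?_⟩
    obtain ⟨j, x, hx, e⟩ := (isFinFun_iff.1 hp).2.2.1 _ (h1.mem i hi)
    rw [(pr_inj e).2]
    exact hx
  obtain ⟨Y, hY, j0, hj0⟩ := hCT (fun p => g' (wd p)) (isCol_of (loc_D1 a)
    (GF.of (DG.app hg' (DG.app hwd (DG.var 0)))) (by
      intro p hp
      show g' (wd p) < k
      rw [hg'def]
      simp only [hlocW p hp, if_true]
      exact hg.1 _ (hlocW p hp)))
  obtain ⟨y, hy, hyY, hybef⟩ := exists_seq hY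
  have hyV : ∀ n, y n ∈ VarLoc N a := fun n => hY.sub (hyY n)
  have hyC : ∀ n, IsC (y n) := fun n => (varLoc_facts (hyV n)).1
  have hE : ∀ n, En (y n) (wd (y n)) (ed (y n)) := fun n => hen _ (varLoc_iff.1 (hyV n)).1
  have hent_le : ∀ n i, i < len (wd (y n)) → ent (wd (y n)) i ≤ a := by
    intro n i hi
    obtain ⟨j, x, hx, e⟩ := (varLoc_facts (hyV n)).2.2.1 _ ((hE n).mem i hi)
    rw [(pr_inj e).2]
    exact le_of_lt1 hx
  have hvw : ∀ n, wd (y n) ∈ VarWords N a := by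
    intro n
    refine varWords_iff.2 ⟨(hE n).hu, hent_le n, ?_⟩
    obtain ⟨i, hi⟩ := (varLoc_iff.1 (hyV n)).2
    obtain ⟨j, hj, e⟩ := (hE n).surj _ hi.lt hi
    exact ⟨j, hj, (pr_inj e).2.symm⟩
  refine ⟨fun n => wd (y n), funIn_iff.2 (GF.of (DG.app hwd (DG.app hy (DG.var 0)))), hvw, j0, ?_⟩
  rintro u ⟨K, ν, α, l0, hν, hα, hl0, hK, hνinc, hαa, hl00, hpieces, hu⟩
  have hνgf := funIn_iff.1 hν
  have hαgf := funIn_iff.1 hα
  have hK' : 0 < K := hK
  -- total lengths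
  obtain ⟨l, hl, hl0', hls⟩ := exists_rec2 (st := fun n z => z + len (wd (y (ν n))))
    (DG.add (DG.var 1) (DG.app len_gf (DG.app hwd (DG.app hy (DG.app hνgf (DG.var 0)))))) 0
  have hpos : ∀ n, 0 < len (wd (y n)) := by
    intro n
    obtain ⟨-, -, i, hi, -⟩ := varWords_iff.1 (hvw n)
    exact lt_of_le_of_lt (zero_le' _) hi
  have hpre1 : Pre (fun i => wd (y (ν i))) l :=
    ⟨GF.of (DG.app hwd (DG.app hy (DG.app hνgf (DG.var 0)))), fun n => (hE _).hu,
      fun n => hpos _, hl, hl0', hls⟩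
  have hlened : ∀ n, len (ed (y n)) = len (wd (y n)) := fun n => len_eq (hE n).he
  have hpre2 : Pre (fun i => ed (y (ν i))) l := by
    refine ⟨GF.of (DG.app hed (DG.app hy (DG.app hνgf (DG.var 0)))), fun n => ?_, fun n => ?_,
      hl, hl0', fun n => ?_⟩
    · rw [hlened]; exact (hE _).he
    · rw [hlened]; exact hpos _
    · rw [hlened]; exact hls n
  have hll : ∀ i, i ≤ K → l0 i = l i := by
    intro i
    have hl0gf := funIn_iff.1 hl0
    refine ind_D1 (P := fun i => i ≤ K → l0 i = l i) ?_ ?_ ?_ i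
    · exact D1.imp (D1.le (DG.var 0) (DG.const K))
        (D1.eq (DG.app hl0gf (DG.var 0)) (DG.app hl (DG.var 0)))
    · intro _
      rw [hl0']
      exact hl00
    · intro i ih hi
      have hiK : i < K := lt_of_lt_of_le (lt1 i) hi
      obtain ⟨m, hm1, hm2, -⟩ := hpieces i hiK
      have hm3 : m = len (wd (y (ν i))) := (len_eq (hasLen_iff.1 hm1)).symm
      have hm2' : l0 (i + 1) = l0 i + m := hm2
      rw [hm2', ih hiK.le, hls, hm3]
  have huL : IsSq u (l K) := by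
    rw [← hll K le_rfl]
    exact hasLen_iff.1 hu
  have hulen : len u = l K := len_eq huL
  have hlet : ∀ i, i < K → ∀ j, j < len (wd (y (ν i))) →
      ent u (l i + j) = repl N a (α i) (ent (wd (y (ν i))) j) := by
    intro i hi j hj
    obtain ⟨m, hm1, hm2, hm3⟩ := hpieces i hi
    have h1 := hm3 j (ent (wd (y (ν i))) j) ((entry_iff (hE _).hu).2 ⟨hj, rfl⟩)
    have h2 : Entry N u (l0 i + j) (repl N a (α i) (ent (wd (y (ν i))) j)) := h1
    rw [hll i hi.le] at h2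
    exact ((entry_iff huL).1 h2).2.symm
  have hin : ∀ i, i < K → ∀ j, j < len (wd (y (ν i))) → l i + j < l K := by
    intro i hi j hj
    refine lt_of_lt_of_le ?_ (hpre1.mono (succ_le' hi))
    rw [hls]
    gcongr
  have hloc : ∀ x, x < l K → ∃ i j, i < K ∧ j < len (wd (y (ν i))) ∧ x = l i + j := by
    intro x hx
    obtain ⟨i, h1, h2⟩ := hpre1.locate x
    have h3 : i < K := hpre1.lt_of_lt (lt_of_le_of_lt h1 hx)
    obtain ⟨j, rfl⟩ := exists_sub h1
    rw [hls] at h2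
    exact ⟨i, j, h3, lt_of_add_lt_add_left h2, rfl⟩
  -- the finite set of located variable words
  have hinjν : ∀ i, i < K → ∀ j, j < K → y (ν i) = y (ν j) → i = j := by
    have key : ∀ i j, i < j → j < K → y (ν i) ≠ y (ν j) := by
      intro i j hij hj e
      have h1 := hybef _ _ (hνinc i j hij hj)
      obtain ⟨r, hr⟩ := (varLoc_facts (hyV (ν i))).2.1
      obtain ⟨m, x, _, rfl⟩ := (varLoc_facts (hyV (ν i))).2.2.1 r hr
      have h2 := (val_iff (hyC _)).2 hr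
      have h3 : Val N (y (ν j)) m x := e ▸ h2
      exact lt_irrefl' _ (h1 _ _ _ _ h2 h3)
    intro i hi j hj e
    rcases lt_trichotomy i j with h1 | h1 | h1
    · exact absurd e (key i j h1 hj)
    · exact h1
    · exact absurd e.symm (key j i h1 hi)
  have hyν : GF (fun i => y (ν i)) := GF.of (DG.app hy (DG.app hνgf (DG.var 0)))
  have hix0 : DG (fun v : Ctx N => mu (fun i => v 0 = y (ν i) ∨ K ≤ i)) := by
    refine DG.mu (P := fun v i => v 0 = y (ν i) ∨ K ≤ i) ?_ ?_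
    · exact D1.or (D1.eq (DG.var 1) (DG.app hyν (DG.var 0))) (D1.le (DG.const _) (DG.var 0))
    · intro v
      exact ⟨K, Or.inr le_rfl⟩
  have hixgf : GF (fun q => mu (fun i => q = y (ν i) ∨ K ≤ i)) := GF.of hix0
  have hixeq : ∀ i, i < K → mu (fun i' => y (ν i) = y (ν i') ∨ K ≤ i') = i := by
    intro i hi
    refine mu_eq (Or.inl rfl) ?_
    rintro j hj (h1 | h1)
    · exact absurd (hinjν i hi j (hj.trans hi) h1) hj.ne'
    · exact absurd (hj.trans hi) (not_lt.2 h1)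
  obtain ⟨bb, hbb⟩ := bdd_image hyν K
  have hFmem : {q | ∃ i, i < K ∧ q = y (ν i)} ∈ N.Sets := by
    have hd : D1 (fun v : Ctx N => ∃ i, i < K ∧ v 0 = y (ν i)) :=
      D1.bex (DG.const K) (D1.eq (DG.var 1) (DG.app hyν (DG.var 0)))
    exact comp_D1 hd.1 hd.2
  have hrp : ∀ i x, i < K → x ≤ a → repl N a (α i) x < a := fun i x hi hx =>
    repl_lt (hαa i hi) hx
  -- the union
  have hpd : D1 (fun v : Ctx N => ∃ i, i < K ∧ ∃ m, m < y (ν i) ∧ ∃ x, x < y (ν i) ∧
      (MemC (pr m x) (y (ν i)) ∧ v 0 = pr m (repl N a (α i) x))) := by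
    refine D1.bex (DG.const K) (D1.bex (DG.app hyν (DG.var 0)) (D1.bex (DG.app hyν (DG.var 1))
      (D1.and ?_ ?_)))
    · exact D1.MemC (DG.pr (DG.var 1) (DG.var 0)) (DG.app hyν (DG.var 2))
    · exact D1.eq (DG.var 3) (DG.pr (DG.var 1)
        (DG.app3 repl_gf (DG.const a) (DG.app hαgf (DG.var 2)) (DG.var 0)))
  obtain ⟨p, hpC, hpm⟩ := exists_isC_D1 (P := fun r => ∃ i, i < K ∧ ∃ m, m < y (ν i) ∧
      ∃ x, x < y (ν i) ∧ (MemC (pr m x) (y (ν i)) ∧ r = pr m (repl N a (α i) x)))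
      hpd (b := pr bb a + 1) (by
    rintro r ⟨i, hi, m, hm, x, hx, hmx, rfl⟩
    obtain ⟨m', x', hx', e⟩ := (varLoc_facts (hyV (ν i))).2.2.1 _ hmx
    rw [← (pr_inj e).2] at hx'
    exact lt1_of_le (pr_mono (hm.trans (hbb i hi)).le (hrp i x hi (le_of_lt1 hx')).le))
  have hpmem : ∀ r, MemC r p ↔ ∃ i m x, i < K ∧ MemC (pr m x) (y (ν i)) ∧
      r = pr m (repl N a (α i) x) := by
    intro r
    rw [hpm]
    constructor
    · rintro ⟨i, hi, m, hm, x, hx, h1, h2⟩
      exact ⟨i, m, x, hi, h1, h2⟩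
    · rintro ⟨i, m, x, hi, h1, h2⟩
      exact ⟨i, hi, m, h1.fst_lt, x, h1.snd_lt, h1, h2⟩
  have hple : ∀ i m x, MemC (pr m x) (y (ν i)) → x ≤ a := by
    intro i m x h1
    obtain ⟨m', x', hx', e⟩ := (varLoc_facts (hyV (ν i))).2.2.1 _ h1
    rw [(pr_inj e).2]
    exact le_of_lt1 hx'
  have hdisj : ∀ i j m m' x x', i < j → j < K → MemC (pr m x) (y (ν i)) →
      MemC (pr m' x') (y (ν j)) → m < m' := by
    intro i j m m' x x' hij hj h1 h2
    exact hybef _ _ (hνinc i j hij hj) m x m' x' ((val_iff (hyC _)).2 h1)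
      ((val_iff (hyC _)).2 h2)
  have hploc : p ∈ Loc N a := by
    refine isFinFun_iff.2 ⟨hpC, ?_, ?_, ?_⟩
    · obtain ⟨r, hr⟩ := (varLoc_facts (hyV (ν 0))).2.1
      obtain ⟨m, x, _, rfl⟩ := (varLoc_facts (hyV (ν 0))).2.2.1 r hr
      exact ⟨_, (hpmem _).2 ⟨0, m, x, hK', hr, rfl⟩⟩
    · intro r hr
      obtain ⟨i, m, x, hi, h1, h2⟩ := (hpmem r).1 hr
      exact ⟨m, _, hrp i x hi (hple i m x h1), h2⟩
    · intro m z z' hz hz'
      obtain ⟨i, m1, x, hi, h1, h2⟩ := (hpmem _).1 hz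
      obtain ⟨j, m2, x', hj, h3, h4⟩ := (hpmem _).1 hz'
      obtain ⟨rfl, rfl⟩ := pr_inj h2
      obtain ⟨rfl, rfl⟩ := pr_inj h4
      rcases lt_trichotomy i j with h5 | h5 | h5
      · exact absurd (hdisj i j _ _ _ _ h5 hj h1 h3) (lt_irrefl _)
      · subst h5
        rw [(varLoc_facts (hyV (ν i))).2.2.2 _ _ _ h1 h3]
      · exact absurd (hdisj j i _ _ _ _ h5 hi h3 h1) (lt_irrefl _)
  have hpspan : p ∈ LocSpan N a Y := by
    refine ⟨{q | ∃ i, i < K ∧ q = y (ν i)}, hFmem, ?_, ⟨_, 0, hK', rfl⟩, ⟨bb, ?_⟩,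
      fun q => α (mu (fun i => q = y (ν i) ∨ K ≤ i)),
      funIn_iff.2 (GF.of (DG.app hαgf (DG.app hixgf (DG.var 0)))), ?_, ?_⟩
    · rintro q ⟨i, _, rfl⟩
      exact hyY _
    · rintro q ⟨i, hi, rfl⟩
      exact hbb i hi
    · rintro q ⟨i, hi, rfl⟩
      simp only [hixeq i hi]
      exact hαa i hi
    · refine isCode_iff.2 ⟨hpC, fun r => ?_⟩
      rw [hpmem]
      constructor
      · rintro ⟨q, ⟨i, hi, rfl⟩, m, x, hv, rfl⟩
        refine ⟨i, m, x, hi, (val_iff (hyC _)).1 hv, ?_⟩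
        simp only [hixeq i hi]
        rfl
      · rintro ⟨i, m, x, hi, h1, rfl⟩
        refine ⟨y (ν i), ⟨i, hi, rfl⟩, m, x, (val_iff (hyC _)).2 h1, ?_⟩
        simp only [hixeq i hi]
        rfl
  -- `u` is the word of `p`
  obtain ⟨W, hW, hW2⟩ := hpre2.exists_W
  obtain ⟨e, he1, he2⟩ := exists_sq1 hW (l K)
  have hee : ∀ i, i < K → ∀ j, j < len (wd (y (ν i))) →
      ent e (l i + j) = ent (ed (y (ν i))) j := by
    intro i hi j hj
    rw [ent_eq he1 (he2 _ (hin i hi j hj))]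
    exact hW2 i j (by rw [hlened]; exact hj)
  have hEn : En p u e := by
    refine ⟨by rw [hulen]; exact huL, by rw [hulen]; exact he1, ?_, ?_, ?_⟩
    · rw [hulen]
      intro x' hx' x hx
      obtain ⟨i, j, hi, hj, rfl⟩ := hloc x (hx.trans hx')
      obtain ⟨i', j', hi', hj', rfl⟩ := hloc x' hx'
      rw [hee i hi j hj, hee i' hi' j' hj']
      have hii : i ≤ i' := by
        by_contra hcon
        have h1 : l (i' + 1) ≤ l i := hpre1.mono (succ_le' (not_le.1 hcon))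
        rw [hls] at h1
        have h2 : l i' + j' < l i' + len (wd (y (ν i'))) := by gcongr
        have h3 : l i ≤ l i + j := le_add_of_nonneg_right (zero_le' _)
        exact absurd hx (not_lt.2 ((h2.le.trans h1).trans h3))
      rcases lt_or_eq_of_le hii with h4 | h4
      · exact hdisj i i' _ _ _ _ h4 hi' ((hE _).mem j hj) ((hE _).mem j' hj')
      · subst h4
        exact (hE _).inc j' hj' j (lt_of_add_lt_add_left hx)
    · rw [hulen]
      intro x hx
      obtain ⟨i, j, hi, hj, rfl⟩ := hloc x hx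
      rw [hee i hi j hj, hlet i hi j hj]
      exact (hpmem _).2 ⟨i, _, _, hi, (hE _).mem j hj, rfl⟩
    · rw [hulen]
      intro r _ hr
      obtain ⟨i, m, x, hi, h1, rfl⟩ := (hpmem r).1 hr
      obtain ⟨j, hj, e'⟩ := (hE (ν i)).surj _ h1.lt h1
      refine ⟨l i + j, hin i hi j hj, ?_⟩
      rw [hee i hi j hj, hlet i hi j hj, (pr_inj e').1, (pr_inj e').2]
  have hup : u = wd p := (en_unique (hlocFF p hploc) hEn (hen p (hlocFF p hploc))).1
  have huW : u ∈ Words N a := by rw [hup]; exact hlocW p hploc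
  have hfin : g' (wd p) = j0 := hj0 p hpspan
  rw [← hup, hg'def] at hfin
  simp only [huW, if_true] at hfin
  exact hfin

end Run7.h563
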